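import Pool.Agent.E8helper9.RM.Defs
import Pool.Agent.H58R.Loc

set_option autoImplicit false

/-!
# Closed sets, finite sets, points
-/

namespace Pool.Agent.E8helper9.RM

variable {n : ℕ}

/-- the character `x ↦ x_1 ^ v_1 ⋯ x_n ^ v_n` of `G` -/
noncomputable def chi {n : ℕ} (v : Fin n → ℤ) : Pt n →* Qbˣ where
  toFun x := ∏ i, x i ^ v i
  map_one' := by simp
  map_mul' x y := by simp [mul_zpow, Finset.prod_mul_distrib]

/-- the saturation of `Γ`: the points with a positive power in `Γ` -/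
def sat {n : ℕ} (Γ : Subgroup (Pt n)) : Subgroup (Pt n) where
  carrier := {x | ∃ m : ℕ, 0 < m ∧ x ^ m ∈ Γ}
  mul_mem' := by
    rintro a b ⟨m, hm, ha⟩ ⟨k, hk, hb⟩
    refine ⟨m * k, Nat.mul_pos hm hk, ?_⟩
    rw [mul_pow, pow_mul, mul_comm m k, pow_mul b]
    exact mul_mem (pow_mem ha _) (pow_mem hb _)
  one_mem' := ⟨1, one_pos, by rw [one_pow]; exact one_mem _⟩
  inv_mem' := by
    rintro a ⟨m, hm, ha⟩
    exact ⟨m, hm, by rw [inv_pow]; exact inv_mem ha⟩

lemma mem_sat {n : ℕ} {Γ : Subgroup (Pt n)} {x : Pt n} :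
    x ∈ sat Γ ↔ ∃ m : ℕ, 0 < m ∧ x ^ m ∈ Γ := Iff.rfl

lemma sat_eq {n : ℕ} {Γ : Subgroup (Pt n)} (h : IsSaturated Γ) : sat Γ = Γ := by
  apply le_antisymm
  · rintro x ⟨m, hm, hx⟩
    exact h x m hm hx
  · intro x hx
    exact ⟨1, one_pos, by rw [pow_one]; exact hx⟩

lemma IsZClosed.union {A B : Set (Pt n)} (hA : IsZClosed A) (hB : IsZClosed B) :
    IsZClosed (A ∪ B) := by
  obtain ⟨S, rfl⟩ := hA
  obtain ⟨T, rfl⟩ := hB
  refine ⟨{h | ∃ f ∈ S, ∃ g ∈ T, h = f * g}, ?_⟩
  ext x
  simp only [Set.mem_union, Set.mem_ofPred_eq]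
  constructor
  · rintro (h | h) _ ⟨f, hf, g, hg, rfl⟩
    · rw [map_mul, h f hf, zero_mul]
    · rw [map_mul, h g hg, mul_zero]
  · intro h
    by_contra hcon
    push Not at hcon
    obtain ⟨⟨f, hf, hf0⟩, g, hg, hg0⟩ := hcon
    have := h (f * g) ⟨f, hf, g, hg, rfl⟩
    rw [map_mul] at this
    exact (mul_ne_zero hf0 hg0) this

lemma isZClosed_singleton (P : Pt n) : IsZClosed ({P} : Set (Pt n)) := by
  refine ⟨Set.range fun i => MvPolynomial.X i - MvPolynomial.C (P i : Qb), ?_⟩
  ext x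
  simp only [Set.mem_singleton_iff, Set.mem_ofPred_eq, Set.forall_mem_range, map_sub,
    MvPolynomial.eval_X, MvPolynomial.eval_C, sub_eq_zero]
  constructor
  · rintro rfl i
    rfl
  · intro h
    funext i
    exact Units.ext (h i)

lemma isZClosed_empty : IsZClosed (∅ : Set (Pt n)) :=
  ⟨{1}, by ext x; simp⟩

lemma isZClosed_of_finite {Z : Set (Pt n)} (hZ : Z.Finite) : IsZClosed Z := by
  induction Z, hZ using Set.Finite.induction_on with
  | empty => exact isZClosed_empty
  | insert _ _ ih =>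
    rw [Set.insert_eq]
    exact (isZClosed_singleton _).union ih

lemma isSubvariety_singleton (P : Pt n) : IsSubvariety ({P} : Set (Pt n)) :=
  ⟨isZClosed_singleton P, Set.singleton_nonempty P, fun A B _ _ h => by simpa using h⟩

lemma subvariety_of_finite {W : Set (Pt n)} (hW : IsSubvariety W) (hfin : W.Finite) :
    ∃ P, W = {P} := by
  obtain ⟨P, hP⟩ := hW.2.1
  refine ⟨P, ?_⟩
  have h := hW.2.2 {P} (W \ {P}) (isZClosed_singleton P)
    (isZClosed_of_finite (hfin.subset Set.sdiff_subset)) (by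
      intro x hx
      by_cases h : x = P
      · left; exact h
      · right; exact ⟨hx, h⟩)
  rcases h with h | h
  · exact Set.Subset.antisymm h (by rintro x rfl; exact hP)
  · exact absurd (h hP).2 (by simp)

lemma hasDim_singleton (P : Pt n) : HasDim ({P} : Set (Pt n)) 0 := by
  unfold HasDim
  let U : Unique {W : Set (Pt n) // IsSubvariety W ∧ W ⊆ {P}} :=
    { default := ⟨{P}, isSubvariety_singleton P, le_rfl⟩
      uniq := by
        rintro ⟨W, hW, hWP⟩
        apply Subtype.ext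
        show W = {P}
        rcases Set.subset_singleton_iff_eq.1 hWP with h | h
        · exact absurd h hW.2.1.ne_empty
        · exact h }
  rw [Order.krullDim_eq_zero_of_unique]
  rfl

lemma isEquidim_of_finite {Z : Set (Pt n)} (hZ : Z.Finite) : IsEquidim Z 0 := by
  intro W hW hWZ _
  obtain ⟨P, rfl⟩ := subvariety_of_finite hW (hZ.subset hWZ)
  exact hasDim_singleton P

lemma hilb_le_of_finite {Z : Set (Pt n)} (hZ : Z.Finite) (N : ℕ) : hilb Z N ≤ Z.ncard := by
  classical
  unfold hilb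
  have : Fintype Z := hZ.fintype
  unfold Set.finrank
  refine (Submodule.finrank_le _).trans ?_
  rw [Module.finrank_fintype_fun_eq_card, Set.ncard_eq_toFinset_card' Z, Set.toFinset_card]

lemma degree_nonneg (Z : Set (Pt n)) (d : ℕ) : 0 ≤ degree Z d := by
  unfold degree
  rw [Filter.limsup_eq]
  apply Real.sInf_nonneg
  rintro a ha
  obtain ⟨N, hN⟩ := (Filter.eventually_atTop.1 ha)
  exact le_trans (by positivity) (hN N le_rfl)

lemma degree_le_of_finite {Z : Set (Pt n)} (hZ : Z.Finite) : degree Z 0 ≤ Z.ncard := by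
  unfold degree
  rw [Filter.limsup_eq]
  apply csInf_le
  · refine ⟨0, ?_⟩
    rintro a ha
    obtain ⟨N, hN⟩ := (Filter.eventually_atTop.1 ha)
    exact le_trans (by positivity) (hN N le_rfl)
  · show ∀ᶠ N in Filter.atTop, _
    refine Filter.Eventually.of_forall fun N => ?_
    simp only [Nat.factorial_zero, Nat.cast_one, one_mul, pow_zero, div_one]
    exact_mod_cast hilb_le_of_finite hZ N

lemma obstruction_nonneg (L : IntermediateField ℚ Qb) (V : Set (Pt n)) : 0 ≤ obstruction L V := by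
  unfold obstruction
  apply Real.sInf_nonneg
  rintro w ⟨Z, d, _, _, _, _, rfl⟩
  exact Real.rpow_nonneg (degree_nonneg Z d) _

lemma univ_infinite (hn : 1 ≤ n) : (Set.univ : Set (Pt n)).Infinite := by
  rw [Set.infinite_univ_iff]
  have : Infinite Qbˣ := by
    have h : Function.Injective (fun k : ℕ => (Units.mk0 ((k + 1 : ℕ) : Qb)
      (Nat.cast_ne_zero.2 (Nat.succ_ne_zero k)))) := by
      intro a b hab
      have := congrArg Units.val hab
      simp only [Units.val_mk0] at this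
      have h2 : a + 1 = b + 1 := by exact_mod_cast this
      omega
    exact Infinite.of_injective _ h
  have : Nonempty (Fin n) := ⟨⟨0, hn⟩⟩
  exact Function.infinite_of_right

/-- a finite set of points defined over `L` bounds the obstruction index -/
lemma obstruction_le {L : IntermediateField ℚ Qb} {V Z : Set (Pt n)} (hn : 1 ≤ n) (hZ : Z.Finite)
    (hL : IsClosedOver L Z) (hV : V ⊆ Z) :
    obstruction L V ≤ (Z.ncard : ℝ) ^ (1 / (n : ℝ)) := by
  unfold obstruction
  have h1 : sInf {w : ℝ | ∃ (Z : Set (Pt n)) (d : ℕ), Z ≠ Set.univ ∧ IsClosedOver L Z ∧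
      IsEquidim Z d ∧ V ⊆ Z ∧ w = degree Z d ^ (1 / ((n : ℝ) - (d : ℝ)))} ≤
      degree Z 0 ^ (1 / ((n : ℝ) - ((0 : ℕ) : ℝ))) := by
    apply csInf_le
    · refine ⟨0, ?_⟩
      rintro w ⟨Z, d, _, _, _, _, rfl⟩
      exact Real.rpow_nonneg (degree_nonneg Z d) _
    · refine ⟨Z, 0, ?_, hL, isEquidim_of_finite hZ, hV, rfl⟩
      intro h
      exact univ_infinite hn (h ▸ hZ)
  refine h1.trans ?_
  rw [Nat.cast_zero, sub_zero]
  exact Real.rpow_le_rpow (degree_nonneg Z 0) (degree_le_of_finite hZ) (by positivity)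

lemma hG_nonneg (x : Pt n) : 0 ≤ hG x := by
  unfold hG
  refine Finset.sum_nonneg fun i _ => ?_
  rw [Pool.Agent.H58P.absLogHeight₁_eq]
  exact Pool.Agent.H58R.ht_nonneg _

/-- the essential minimum of a point is its height -/
lemma essMin_singleton (P : Pt n) : essMin ({P} : Set (Pt n)) = hG P := by
  have h : {θ : ℝ | ∀ W : Set (Pt n), IsZClosed W →
      {x | x ∈ ({P} : Set (Pt n)) ∧ hG x ≤ θ} ⊆ W → ({P} : Set (Pt n)) ⊆ W} = Set.Ici (hG P) := by
    ext θ
    simp only [Set.mem_ofPred_eq, Set.mem_Ici]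
    constructor
    · intro h
      by_contra hcon
      have h1 := h ∅ isZClosed_empty (by
        rintro x ⟨hx, hx2⟩
        rw [Set.mem_singleton_iff] at hx
        subst hx
        exact hcon hx2)
      exact h1 rfl
    · intro h W _ hW x hx
      rw [Set.mem_singleton_iff] at hx
      subst hx
      exact hW ⟨rfl, h⟩
  unfold essMin
  rw [h, csInf_Ici]

/-- a proper algebraic subgroup is contained in the kernel of a nontrivial character -/
lemma exists_chi_of_closed_subgroup (B : Subgroup (Pt n)) (hB : IsZClosed (B : Set (Pt n)))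
    (hne : (B : Set (Pt n)) ≠ Set.univ) :
    ∃ v : Fin n → ℤ, v ≠ 0 ∧ ∀ b ∈ B, chi v b = 1 := by
  classical
  obtain ⟨S, hS⟩ := hB
  obtain ⟨f, hf, hf0⟩ : ∃ f ∈ S, f ≠ 0 := by
    by_contra hcon
    push Not at hcon
    apply hne
    rw [hS]
    ext x
    simp only [Set.mem_ofPred_eq, Set.mem_univ, iff_true]
    intro f hf
    rw [hcon f hf, map_zero]
  have hvan : ∀ b ∈ B, MvPolynomial.eval (fun i => (b i : Qb)) f = 0 := by
    intro b hb
    have : b ∈ (B : Set (Pt n)) := hb
    rw [hS] at this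
    exact this f hf
  -- the monomial characters of `B`
  let c : (Fin n →₀ ℕ) → (B →* Qb) := fun u =>
    { toFun := fun b => ∏ i, ((b : Pt n) i : Qb) ^ u i
      map_one' := by simp
      map_mul' := fun x y => by simp [mul_pow, Finset.prod_mul_distrib] }
  have hnotinj : ¬ Set.InjOn c (f.support : Set (Fin n →₀ ℕ)) := by
    intro hinj
    have hli := linearIndependent_monoidHom B Qb
    have hinj' : Function.Injective (fun u : f.support => c u) := by
      intro a b hab
      exact Subtype.ext (hinj a.2 b.2 hab)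
    have hli2 := hli.comp _ hinj'
    rw [Fintype.linearIndependent_iff] at hli2
    have h0 := hli2 (fun u => f.coeff u) (by
      funext b
      have h1 := hvan b b.2
      rw [MvPolynomial.eval_eq'] at h1
      rw [Finset.sum_apply]
      simp only [Pi.smul_apply, Function.comp_apply, smul_eq_mul, Pi.zero_apply]
      rw [← h1, ← Finset.sum_coe_sort f.support
        (fun u => MvPolynomial.coeff u f * ∏ i, ((b : Pt n) i : Qb) ^ u i)]
      rfl)
    obtain ⟨u, hu⟩ := MvPolynomial.support_nonempty.2 hf0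
    exact (MvPolynomial.mem_support_iff.1 hu) (h0 ⟨u, hu⟩)
  rw [Set.InjOn] at hnotinj
  push Not at hnotinj
  obtain ⟨u, hu, u', hu', heq, hneq⟩ := hnotinj
  refine ⟨fun i => (u i : ℤ) - (u' i : ℤ), ?_, ?_⟩
  · intro h
    apply hneq
    ext i
    have := congrFun h i
    simp only [Pi.zero_apply] at this
    omega
  · intro b hb
    have h1 := DFunLike.congr_fun heq ⟨b, hb⟩
    have h1' : ∏ i, (b i : Qb) ^ u i = ∏ i, (b i : Qb) ^ u' i := h1
    have h2 : ∏ i, b i ^ u i = ∏ i, b i ^ u' i := by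
      apply Units.ext
      rw [Units.coe_prod, Units.coe_prod]
      simpa using h1'
    show ∏ i, b i ^ ((u i : ℤ) - (u' i : ℤ)) = 1
    have h3 : ∀ i, b i ^ ((u i : ℤ) - (u' i : ℤ)) = b i ^ u i * (b i ^ u' i)⁻¹ := by
      intro i
      rw [zpow_sub, zpow_natCast, zpow_natCast]
    rw [Finset.prod_congr rfl fun i _ => h3 i, Finset.prod_mul_distrib, Finset.prod_inv_distrib,
      h2, mul_inv_cancel]

/-- a sufficient condition for a set to be transverse -/
lemma isTransverse_of_chi {Γ : Subgroup (Pt n)} {P : Pt n}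
    (h : ∀ v : Fin n → ℤ, v ≠ 0 → ∀ γ ∈ sat Γ, chi v P ≠ chi v γ) :
    IsTransverse Γ ({P} : Set (Pt n)) := by
  rintro T ⟨B, hB, γ, hγ, rfl⟩ hT hP
  have hBne : (B : Set (Pt n)) ≠ Set.univ := by
    intro hB'
    apply hT
    ext x
    simp only [Set.mem_ofPred_eq, Set.mem_univ, iff_true]
    refine ⟨γ⁻¹ * x, ?_, by rw [mul_inv_cancel_left]⟩
    have : γ⁻¹ * x ∈ (B : Set (Pt n)) := by rw [hB']; trivial
    exact this
  obtain ⟨v, hv, hvB⟩ := exists_chi_of_closed_subgroup B hB.1 hBne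
  obtain ⟨b, hb, hPb⟩ := hP rfl
  apply h v hv γ hγ
  rw [hPb, map_mul, hvB b hb, mul_one]

/-- if the points of `G` which are `Γ`-transverse, with the indicated data, have no positive
lower bound then `Γ` is not a Lehmer group -/
lemma not_isLehmerGroup (hn : 1 ≤ n) {K : IntermediateField ℚ Qb} {Γ : Subgroup (Pt n)}
    (h : ∀ c : ℝ, 0 < c → ∃ (P : Pt n) (Z : Set (Pt n)), Z.Finite ∧
      IsClosedOver (coordField K Γ) Z ∧ P ∈ Z ∧ IsTransverse Γ {P} ∧
      (Z.ncard : ℝ) ^ (1 / (n : ℝ)) * hG P < c) :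
    ¬ IsLehmerGroup K Γ := by
  rintro ⟨c, hc, hL⟩
  obtain ⟨P, Z, hZ, hZL, hPZ, hP, hlt⟩ := h c hc
  have h1 := hL {P} (isSubvariety_singleton P) (by
    intro h
    exact univ_infinite hn (h ▸ Set.finite_singleton P)) hP
  rw [essMin_singleton] at h1
  have h2 := obstruction_le hn hZ hZL (Set.singleton_subset_iff.2 hPZ)
  have h3 := mul_le_mul_of_nonneg_right h2 (hG_nonneg P)
  linarith

end Pool.Agent.E8helper9.RM
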