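import Pool.Agent.E8helper9.RM.Defs
import Pool.Agent.H58P.Ht

set_option autoImplicit false

/-!
# Primes which are independent of a given finitely generated group
-/

namespace Pool.Agent.E8helper9.RM

lemma padicValRat_prod {ι : Type*} (p : ℕ) [Fact p.Prime] (s : Finset ι) (f : ι → ℚ)
    (hf : ∀ i ∈ s, f i ≠ 0) : padicValRat p (∏ i ∈ s, f i) = ∑ i ∈ s, padicValRat p (f i) := by
  classical
  induction s using Finset.induction_on with
  | empty => simp
  | insert a s ha ih =>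
    rw [Finset.prod_insert ha, Finset.sum_insert ha, padicValRat.mul
      (hf a (Finset.mem_insert_self a s))
      (Finset.prod_ne_zero_iff.2 fun i hi => hf i (Finset.mem_insert_of_mem hi)),
      ih fun i hi => hf i (Finset.mem_insert_of_mem hi)]

lemma padicValRat_prime_prod {n : ℕ} (t : Fin n → ℕ) (ht : ∀ i, (t i).Prime)
    (hinj : Function.Injective t) (a : Fin n → ℤ) (j : Fin n) :
    padicValRat (t j) (∏ i, ((t i : ℚ)) ^ a i) = a j := by
  classical
  have : Fact (t j).Prime := ⟨ht j⟩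
  rw [padicValRat_prod _ _ _ fun i _ => zpow_ne_zero _ (Nat.cast_ne_zero.2 (ht i).ne_zero)]
  rw [Finset.sum_eq_single j]
  · rw [padicValRat.zpow]
    simp
  · intro i _ hij
    rw [padicValRat.zpow]
    have h1 : padicValRat (t j) ((t i : ℕ) : ℚ) = 0 := by
      rw [padicValRat.of_nat]
      have : ¬ (t j) ∣ (t i) := by
        intro h
        exact hij (hinj ((Nat.prime_dvd_prime_iff_eq (ht j) (ht i)).1 h).symm)
      rw [padicValNat.eq_zero_of_not_dvd this]
      rfl
    rw [h1, mul_zero]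
  · intro h
    exact absurd (Finset.mem_univ j) h

lemma exists_primes (F : Set Qbˣ) (hF : F.Finite) :
    ∃ N : ℕ, ∀ (n : ℕ) (t : Fin n → ℕ), (∀ i, (t i).Prime) → (∀ i, N < t i) →
      Function.Injective t → ∀ (a : Fin n → ℤ) (u : Fin n → Qbˣ), (∀ i, (u i : Qb) = (t i : Qb)) →
      ∀ m : ℕ, 0 < m → (∏ i, u i ^ a i) ^ m ∈ Subgroup.closure F → a = 0 := by
  classical
  set E := IntermediateField.adjoin ℚ ((fun x : Qbˣ => (x : Qb)) '' F) with hE
  have : Finite ((fun x : Qbˣ => (x : Qb)) '' F) := (hF.image _)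
  have hfd : FiniteDimensional ℚ E :=
    IntermediateField.finiteDimensional_adjoin fun y _ => Pool.Agent.H58P.qb_isIntegral y
  have hFE : ∀ f ∈ F, (f : Qb) ∈ E := fun f hf => IntermediateField.subset_adjoin ℚ _ ⟨f, hf, rfl⟩
  let ν : Qb → ℚ := fun x => if hx : x ∈ E then Algebra.norm ℚ (⟨x, hx⟩ : E) else 0
  let N : ℕ := hF.toFinset.sup fun f => (ν (f : Qb)).num.natAbs + (ν (f : Qb)).den
  refine ⟨N, fun n t ht htN hinj a u hu m hm hmem => ?_⟩
  have key : ∀ p : ℕ, p.Prime → N < p → ∀ x ∈ Subgroup.closure F,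
      ∃ hx : (x : Qb) ∈ E, padicValRat p (Algebra.norm ℚ (⟨x, hx⟩ : E)) = 0 := by
    intro p hp hpN x hx
    have : Fact p.Prime := ⟨hp⟩
    have hnz : ∀ (y : Qbˣ) (hy : (y : Qb) ∈ E), Algebra.norm ℚ (⟨y, hy⟩ : E) ≠ 0 := by
      intro y hy
      rw [Algebra.norm_ne_zero_iff]
      intro h
      exact y.ne_zero (congrArg Subtype.val h)
    induction hx using Subgroup.closure_induction with
    | mem f hf =>
      refine ⟨hFE f hf, ?_⟩
      have h1 : (ν (f : Qb)).num.natAbs + (ν (f : Qb)).den ≤ N :=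
        Finset.le_sup (f := fun f : Qbˣ => (ν (f : Qb)).num.natAbs + (ν (f : Qb)).den)
          (hF.mem_toFinset.2 hf)
      have h2 : ν (f : Qb) = Algebra.norm ℚ (⟨f, hFE f hf⟩ : E) := dif_pos (hFE f hf)
      rw [← h2]
      have h3 : ν (f : Qb) ≠ 0 := by
        rw [h2]
        exact hnz f _
      unfold padicValRat
      have h4 : (ν (f : Qb)).num.natAbs ≠ 0 := by
        rw [Int.natAbs_ne_zero]
        exact Rat.num_ne_zero.2 h3
      have h5 : padicValInt p (ν (f : Qb)).num = 0 := by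
        unfold padicValInt
        apply padicValNat.eq_zero_of_not_dvd
        intro hd
        have := Nat.le_of_dvd (Nat.pos_of_ne_zero h4) hd
        omega
      have h6 : padicValNat p (ν (f : Qb)).den = 0 := by
        apply padicValNat.eq_zero_of_not_dvd
        intro hd
        have := Nat.le_of_dvd (ν (f : Qb)).den_pos hd
        omega
      rw [h5, h6]
      simp
    | one =>
      refine ⟨by rw [Units.val_one]; exact one_mem E, ?_⟩
      have : (⟨((1 : Qbˣ) : Qb), by rw [Units.val_one]; exact one_mem E⟩ : E) = 1 :=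
        Subtype.ext Units.val_one
      rw [this, map_one, padicValRat.one]
    | mul x y _ _ hx hy =>
      obtain ⟨hx, hx0⟩ := hx
      obtain ⟨hy, hy0⟩ := hy
      have hxy : ((x * y : Qbˣ) : Qb) ∈ E := by
        rw [Units.val_mul]
        exact mul_mem hx hy
      refine ⟨hxy, ?_⟩
      have : (⟨((x * y : Qbˣ) : Qb), hxy⟩ : E) = ⟨x, hx⟩ * ⟨y, hy⟩ :=
        Subtype.ext (Units.val_mul x y)
      rw [this, map_mul, padicValRat.mul (hnz x hx) (hnz y hy), hx0, hy0, add_zero]
    | inv x _ hx =>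
      obtain ⟨hx, hx0⟩ := hx
      have hxi : ((x⁻¹ : Qbˣ) : Qb) ∈ E := by
        rw [Units.val_inv_eq_inv_val]
        exact inv_mem hx
      refine ⟨hxi, ?_⟩
      have : (⟨((x⁻¹ : Qbˣ) : Qb), hxi⟩ : E) = (⟨x, hx⟩ : E)⁻¹ :=
        Subtype.ext (Units.val_inv_eq_inv_val x)
      have hne : (⟨x, hx⟩ : E) ≠ 0 := fun h => x.ne_zero (congrArg Subtype.val h)
      have h2 : Algebra.norm ℚ ((⟨x, hx⟩ : E)⁻¹) = (Algebra.norm ℚ (⟨x, hx⟩ : E))⁻¹ :=
        eq_inv_of_mul_eq_one_left (by rw [← map_mul, inv_mul_cancel₀ hne, map_one])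
      rw [this, h2, padicValRat.inv, hx0, neg_zero]
  funext j
  obtain ⟨hx, h0⟩ := key (t j) (ht j) (htN j) _ hmem
  have hval : (((∏ i, u i ^ a i) ^ m : Qbˣ) : Qb) =
      algebraMap ℚ Qb ((∏ i, ((t i : ℚ)) ^ a i) ^ m) := by
    rw [Units.val_pow_eq_pow_val, Units.coe_prod, map_pow, map_prod]
    congr 1
    refine Finset.prod_congr rfl fun i _ => ?_
    rw [Units.val_zpow_eq_zpow_val, hu i, map_zpow₀, map_natCast]
  have h1 : (⟨_, hx⟩ : E) = algebraMap ℚ E ((∏ i, ((t i : ℚ)) ^ a i) ^ m) :=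
    Subtype.ext (hval.trans rfl)
  have : Fact (t j).Prime := ⟨ht j⟩
  rw [h1, Algebra.norm_algebraMap, padicValRat.pow, padicValRat.pow,
    padicValRat_prime_prod t ht hinj] at h0
  have hd : (Module.finrank ℚ E : ℤ) ≠ 0 := by
    exact_mod_cast (Module.finrank_pos (R := ℚ) (M := E)).ne'
  have hm' : (m : ℤ) ≠ 0 := by exact_mod_cast hm.ne'
  rcases mul_eq_zero.1 h0 with h | h
  · exact absurd h hd
  · rcases mul_eq_zero.1 h with h | h
    · exact absurd h hm'
    · exact h

/-- the same, with primes chosen -/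
lemma exists_independent_primes (F : Set Qbˣ) (hF : F.Finite) (n : ℕ) :
    ∃ (t : Fin n → ℕ) (u : Fin n → Qbˣ), (∀ i, (u i : Qb) = (t i : Qb)) ∧
      ∀ a : Fin n → ℤ, ∀ m : ℕ, 0 < m → (∏ i, u i ^ a i) ^ m ∈ Subgroup.closure F → a = 0 := by
  obtain ⟨N, hN⟩ := exists_primes F hF
  -- an increasing sequence of primes greater than `N`
  have hinf : {p : ℕ | p.Prime ∧ N < p}.Infinite := by
    rw [Set.infinite_iff_exists_gt]
    intro a
    obtain ⟨p, hp, hpp⟩ := Nat.exists_infinite_primes (max a N + 1)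
    exact ⟨p, ⟨hpp, by omega⟩, by omega⟩
  let e := Set.Infinite.natEmbedding _ hinf
  refine ⟨fun i => (e i : ℕ), fun i => Units.mk0 (((e i : ℕ)) : Qb)
    (Nat.cast_ne_zero.2 (e i).2.1.ne_zero), fun i => rfl, ?_⟩
  intro a m hm hmem
  refine hN n (fun i => (e i : ℕ)) (fun i => (e i).2.1) (fun i => (e i).2.2) ?_ a _
    (fun i => rfl) m hm hmem
  intro i j hij
  have h1 : e i = e j := Subtype.ext hij
  have h2 := e.injective h1
  exact Fin.ext h2

end Pool.Agent.E8helper9.RM
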