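import Mathlib

set_option autoImplicit false

/-!
# Groups of finite rank
-/

namespace Pool.Agent.E8helper9.RM

open scoped TensorProduct

variable {M : Type*} [AddCommGroup M]

/-- the kernel of `M → ℚ ⊗ M` is torsion -/
lemma tmul_eq_zero {x : M} (h : (1 : ℚ) ⊗ₜ[ℤ] x = 0) : ∃ k : ℕ, 0 < k ∧ k • x = 0 := by
  have hl : IsLocalizedModule (nonZeroDivisors ℤ) (TensorProduct.mk ℤ ℚ M 1) :=
    (isLocalizedModule_iff_isBaseChange (nonZeroDivisors ℤ) ℚ _).2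
      (TensorProduct.isBaseChange ℤ M ℚ)
  obtain ⟨c, hc⟩ := (IsLocalizedModule.eq_zero_iff (nonZeroDivisors ℤ)
    (TensorProduct.mk ℤ ℚ M 1)).1 h
  have hc0 : (c : ℤ) ≠ 0 := nonZeroDivisors.coe_ne_zero c
  refine ⟨(c : ℤ).natAbs, Int.natAbs_pos.2 hc0, ?_⟩
  have hc' : (c : ℤ) • x = 0 := hc
  rcases Int.natAbs_eq (c : ℤ) with h | h
  · rw [h, natCast_zsmul] at hc'
    exact hc'
  · rw [h, neg_zsmul, natCast_zsmul, neg_eq_zero] at hc'
    exact hc'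

lemma span_mk : Submodule.span ℚ (Set.range (fun x : M => (1 : ℚ) ⊗ₜ[ℤ] x)) = ⊤ := by
  rw [eq_top_iff]
  rintro z -
  induction z using TensorProduct.induction_on with
  | zero => exact zero_mem _
  | tmul q x =>
    have : q ⊗ₜ[ℤ] x = q • ((1 : ℚ) ⊗ₜ[ℤ] x) := by
      rw [TensorProduct.smul_tmul', smul_eq_mul, mul_one]
    rw [this]
    exact Submodule.smul_mem _ _ (Submodule.subset_span ⟨x, rfl⟩)
  | add a b ha hb => exact add_mem ha hb

lemma exists_smul_mem_closure {V : Type*} [AddCommGroup V] [Module ℚ V] (b : Set V) (y : V)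
    (hy : y ∈ Submodule.span ℚ b) : ∃ m : ℕ, 0 < m ∧ m • y ∈ AddSubgroup.closure b := by
  induction hy using Submodule.span_induction with
  | mem x hx => exact ⟨1, one_pos, by rw [one_smul]; exact AddSubgroup.subset_closure hx⟩
  | zero => exact ⟨1, one_pos, by rw [smul_zero]; exact zero_mem _⟩
  | add x y _ _ hx hy =>
    obtain ⟨m, hm, hx⟩ := hx
    obtain ⟨k, hk, hy⟩ := hy
    refine ⟨m * k, Nat.mul_pos hm hk, ?_⟩
    rw [smul_add]
    refine add_mem ?_ ?_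
    · rw [mul_comm, mul_smul]
      exact nsmul_mem hx k
    · rw [mul_smul]
      exact nsmul_mem hy m
  | smul q x _ hx =>
    obtain ⟨m, hm, hx⟩ := hx
    refine ⟨q.den * m, Nat.mul_pos q.den_pos hm, ?_⟩
    have : (q.den * m) • (q • x) = q.num • (m • x) := by
      rw [← Nat.cast_smul_eq_nsmul ℚ, ← Nat.cast_smul_eq_nsmul ℚ, ← Int.cast_smul_eq_zsmul ℚ,
        smul_smul, smul_smul]
      congr 1
      push_cast
      have := Rat.den_mul_eq_num q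
      linear_combination (m : ℚ) * this
    rw [this]
    exact zsmul_mem hx _

/-- a group of finite rank is, up to powers, finitely generated -/
lemma exists_finite_of_rank [FiniteDimensional ℚ (ℚ ⊗[ℤ] M)] :
    ∃ F : Set M, F.Finite ∧ ∀ x, ∃ m : ℕ, 0 < m ∧ m • x ∈ AddSubgroup.closure F := by
  obtain ⟨b, hb, hspan, hli⟩ := exists_linearIndependent ℚ
    (Set.range (fun x : M => (1 : ℚ) ⊗ₜ[ℤ] x))
  rw [span_mk] at hspan
  have hfin : b.Finite := hli.setFinite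
  have hch : ∀ y : b, ∃ x : M, (1 : ℚ) ⊗ₜ[ℤ] x = (y : ℚ ⊗[ℤ] M) := fun y => hb y.2
  choose g hg using hch
  have : Finite b := hfin
  refine ⟨Set.range g, Set.finite_range g, fun x => ?_⟩
  obtain ⟨m, hm, hmx⟩ := exists_smul_mem_closure b ((1 : ℚ) ⊗ₜ[ℤ] x) (by rw [hspan]; trivial)
  have hle : AddSubgroup.closure b ≤
      (AddSubgroup.closure (Set.range g)).map (TensorProduct.mk ℤ ℚ M 1).toAddMonoidHom := by
    rw [AddSubgroup.closure_le]
    intro y hy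
    exact ⟨g ⟨y, hy⟩, AddSubgroup.subset_closure ⟨_, rfl⟩, hg ⟨y, hy⟩⟩
  obtain ⟨z, hz, hzx⟩ := hle hmx
  have hzx' : (1 : ℚ) ⊗ₜ[ℤ] z = m • ((1 : ℚ) ⊗ₜ[ℤ] x) := hzx
  have h0 : (1 : ℚ) ⊗ₜ[ℤ] (m • x - z) = 0 := by
    rw [TensorProduct.tmul_sub, hzx', TensorProduct.tmul_smul, sub_self]
  obtain ⟨k, hk, hk0⟩ := tmul_eq_zero h0
  refine ⟨k * m, Nat.mul_pos hk hm, ?_⟩
  rw [mul_smul]
  rw [smul_sub, sub_eq_zero] at hk0
  rw [hk0]
  exact nsmul_mem hz k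

/-- a group, not torsion, all of whose elements have a positive multiple which is a multiple of a
fixed element, has rank one -/
lemma finrank_eq_one (g : M) (hg : ∀ k : ℕ, 0 < k → k • g ≠ 0)
    (h : ∀ x : M, ∃ m : ℕ, 0 < m ∧ ∃ k : ℤ, m • x = k • g) :
    Module.finrank ℚ (ℚ ⊗[ℤ] M) = 1 := by
  rw [finrank_eq_one_iff']
  refine ⟨(1 : ℚ) ⊗ₜ[ℤ] g, ?_, fun w => ?_⟩
  · intro h0
    obtain ⟨k, hk, hk0⟩ := tmul_eq_zero h0
    exact hg k hk hk0
  · induction w using TensorProduct.induction_on with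
    | zero => exact ⟨0, zero_smul _ _⟩
    | tmul q x =>
      obtain ⟨m, hm, k, hk⟩ := h x
      refine ⟨q * k / m, ?_⟩
      have h1 : (m : ℚ) • ((1 : ℚ) ⊗ₜ[ℤ] x) = (k : ℚ) • ((1 : ℚ) ⊗ₜ[ℤ] g) := by
        rw [Nat.cast_smul_eq_nsmul ℚ, Int.cast_smul_eq_zsmul ℚ, ← TensorProduct.tmul_smul,
          ← TensorProduct.tmul_smul, hk]
      have hm0 : (m : ℚ) ≠ 0 := by exact_mod_cast hm.ne'
      have h2 : q ⊗ₜ[ℤ] x = q • ((1 : ℚ) ⊗ₜ[ℤ] x) := by
        rw [TensorProduct.smul_tmul', smul_eq_mul, mul_one]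
      have h3 : (1 : ℚ) ⊗ₜ[ℤ] x = ((k : ℚ) / m) • ((1 : ℚ) ⊗ₜ[ℤ] g) := by
        rw [div_eq_inv_mul, mul_smul, ← h1, smul_smul, inv_mul_cancel₀ hm0, one_smul]
      rw [h2, h3, smul_smul, mul_div_assoc]
    | add a b ha hb =>
      obtain ⟨c, rfl⟩ := ha
      obtain ⟨d, rfl⟩ := hb
      exact ⟨c + d, add_smul _ _ _⟩

end Pool.Agent.E8helper9.RM
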