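import Pool.Agent.E8helper9.RM.Basic
import Pool.Agent.E8helper9.RM.Rank
import Pool.Agent.E8helper9.RM.Primes

set_option autoImplicit false

/-!
# Saturated groups of finite rank
-/

namespace Pool.Agent.E8helper9.RM

open scoped TensorProduct

variable {n : ℕ}

lemma exists_root (x : Qbˣ) {m : ℕ} (hm : 0 < m) : ∃ y : Qbˣ, y ^ m = x := by
  obtain ⟨z, hz⟩ := IsAlgClosed.exists_pow_nat_eq (x : Qb) hm
  have hz0 : z ≠ 0 := by
    rintro rfl
    rw [zero_pow hm.ne'] at hz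
    exact x.ne_zero hz.symm
  exact ⟨Units.mk0 z hz0, Units.ext (by rw [Units.val_pow_eq_pow_val, Units.val_mk0, hz])⟩

lemma exists_zroot (x : Qbˣ) {k : ℤ} (hk : k ≠ 0) : ∃ y : Qbˣ, y ^ k = x := by
  obtain ⟨z, hz⟩ := exists_root x (Int.natAbs_pos.2 hk)
  rcases Int.natAbs_eq k with h | h
  · exact ⟨z, by rw [h, zpow_natCast]; exact hz⟩
  · exact ⟨z⁻¹, by rw [h, zpow_neg, zpow_natCast, inv_pow, inv_inv]; exact hz⟩

lemma mem_of_sat {Γ : Subgroup (Pt n)} (hΓ : sat Γ = Γ) {x : Pt n} {m : ℕ} (hm : 0 < m)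
    (h : x ^ m ∈ Γ) : x ∈ Γ := by
  rw [← hΓ]
  exact ⟨m, hm, h⟩

lemma mem_of_sat_z {Γ : Subgroup (Pt n)} (hΓ : sat Γ = Γ) {x : Pt n} {k : ℤ} (hk : k ≠ 0)
    (h : x ^ k ∈ Γ) : x ∈ Γ := by
  apply mem_of_sat hΓ (Int.natAbs_pos.2 hk)
  rcases Int.natAbs_eq k with h' | h'
  · rw [h', zpow_natCast] at h
    exact h
  · rw [h', zpow_neg, zpow_natCast] at h
    exact inv_mem_iff.1 h

/-- torsion numbers are coordinates of points of a saturated group, at any place -/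
lemma mulSingle_mem {Γ : Subgroup (Pt n)} (hΓ : sat Γ = Γ) (i : Fin n) {z : Qbˣ} {m : ℕ}
    (hm : 0 < m) (h : z ^ m = 1) : (Pi.mulSingle i z : Pt n) ∈ Γ := by
  apply mem_of_sat hΓ hm
  rw [← Pi.mulSingle_pow, h, Pi.mulSingle_one]
  exact one_mem _

lemma coord_mem {Γ : Subgroup (Pt n)} {g : Pt n} (hg : g ∈ Γ) (i : Fin n) :
    g i ∈ coordGroup Γ := Subgroup.subset_closure ⟨g, hg, i, rfl⟩

lemma torsion_mem_coordGroup (hn : 1 ≤ n) {Γ : Subgroup (Pt n)} (hΓ : sat Γ = Γ) {z : Qbˣ} {m : ℕ}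
    (hm : 0 < m) (h : z ^ m = 1) : z ∈ coordGroup Γ := by
  have h1 := coord_mem (mulSingle_mem hΓ ⟨0, hn⟩ hm h) ⟨0, hn⟩
  rwa [Pi.mulSingle_eq_same] at h1

/-- the coordinate group of a saturated group is divisible -/
lemma exists_root_coordGroup {Γ : Subgroup (Pt n)} (hΓ : sat Γ = Γ) {y : Qbˣ}
    (hy : y ∈ coordGroup Γ) {m : ℕ} (hm : 0 < m) : ∃ z ∈ coordGroup Γ, z ^ m = y := by
  induction hy using Subgroup.closure_induction with
  | mem x hx =>
    obtain ⟨g, hg, i, rfl⟩ := hx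
    choose r hr using fun j => exists_root (g j) hm
    have hrg : r ^ m = g := funext hr
    exact ⟨r i, coord_mem (mem_of_sat hΓ hm (hrg ▸ hg)) i, hr i⟩
  | one => exact ⟨1, one_mem _, one_pow _⟩
  | mul x y _ _ hx hy =>
    obtain ⟨z, hz, rfl⟩ := hx
    obtain ⟨w, hw, rfl⟩ := hy
    exact ⟨z * w, mul_mem hz hw, mul_pow _ _ _⟩
  | inv x _ hx =>
    obtain ⟨z, hz, rfl⟩ := hx
    exact ⟨z⁻¹, inv_mem hz, inv_pow _ _⟩

/-- the coordinate group of a saturated group is saturated -/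
lemma root_mem_coordGroup (hn : 1 ≤ n) {Γ : Subgroup (Pt n)} (hΓ : sat Γ = Γ) {y : Qbˣ} {m : ℕ}
    (hm : 0 < m) (hy : y ^ m ∈ coordGroup Γ) : y ∈ coordGroup Γ := by
  obtain ⟨z, hz, hzy⟩ := exists_root_coordGroup hΓ hy hm
  have h1 : (y * z⁻¹) ^ m = 1 := by rw [mul_pow, inv_pow, hzy, mul_inv_cancel]
  have h2 := mul_mem (torsion_mem_coordGroup hn hΓ hm h1) hz
  rwa [inv_mul_cancel_right] at h2

lemma chi_apply (v : Fin n → ℤ) (x : Pt n) : chi v x = ∏ i, x i ^ v i := rfl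

lemma chi_mem_coordGroup {Γ : Subgroup (Pt n)} (v : Fin n → ℤ) {x : Pt n}
    (hx : ∀ i, x i ∈ coordGroup Γ) : chi v x ∈ coordGroup Γ := by
  rw [chi_apply]
  exact prod_mem fun i _ => zpow_mem (hx i) _

lemma chi_mulSingle (v : Fin n → ℤ) (i : Fin n) (z : Qbˣ) :
    chi v (Pi.mulSingle i z) = z ^ v i := by
  rw [chi_apply, Finset.prod_eq_single i]
  · rw [Pi.mulSingle_eq_same]
  · intro j _ hj
    rw [Pi.mulSingle_eq_of_ne hj, one_zpow]
  · intro h
    exact absurd (Finset.mem_univ i) h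

/-- the image of a saturated group under a nontrivial character is saturated -/
lemma root_mem_map_chi {Γ : Subgroup (Pt n)} (hΓ : sat Γ = Γ) {v : Fin n → ℤ} (hv : v ≠ 0)
    {y : Qbˣ} {m : ℕ} (hm : 0 < m) (hy : y ^ m ∈ Γ.map (chi v)) : y ∈ Γ.map (chi v) := by
  obtain ⟨i, hi⟩ : ∃ i, v i ≠ 0 := by
    by_contra hcon
    push Not at hcon
    exact hv (funext hcon)
  obtain ⟨g, hg, hgy⟩ := hy
  choose r hr using fun j => exists_root (g j) hm
  have hrg : r ^ m = g := funext hr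
  have hrΓ : r ∈ Γ := mem_of_sat hΓ hm (hrg ▸ hg)
  have h1 : (y * (chi v r)⁻¹) ^ m = 1 := by
    rw [mul_pow, inv_pow, ← map_pow, hrg, hgy, mul_inv_cancel]
  obtain ⟨z, hz⟩ := exists_zroot (y * (chi v r)⁻¹) hi
  have hz1 : z ^ ((v i).natAbs * m) = 1 := by
    rw [← hz] at h1
    rw [pow_mul]
    rcases Int.natAbs_eq (v i) with h | h
    · rw [h, zpow_natCast] at h1
      exact h1
    · rw [h, zpow_neg, zpow_natCast, inv_pow, inv_eq_one] at h1
      exact h1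
  refine ⟨Pi.mulSingle i z * r, mul_mem (mulSingle_mem hΓ i
    (Nat.mul_pos (Int.natAbs_pos.2 hi) hm) hz1) hrΓ, ?_⟩
  rw [map_mul, chi_mulSingle, hz, inv_mul_cancel_right]

lemma root_mem_map_chi_z {Γ : Subgroup (Pt n)} (hΓ : sat Γ = Γ) {v : Fin n → ℤ} (hv : v ≠ 0)
    {y : Qbˣ} {k : ℤ} (hk : k ≠ 0) (hy : y ^ k ∈ Γ.map (chi v)) : y ∈ Γ.map (chi v) := by
  apply root_mem_map_chi hΓ hv (Int.natAbs_pos.2 hk)
  rcases Int.natAbs_eq k with h' | h'
  · rw [h', zpow_natCast] at hy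
    exact hy
  · rw [h', zpow_neg, zpow_natCast] at hy
    exact inv_mem_iff.1 hy

lemma map_chi_le (Γ : Subgroup (Pt n)) (v : Fin n → ℤ) : Γ.map (chi v) ≤ coordGroup Γ := by
  rintro _ ⟨g, hg, rfl⟩
  exact chi_mem_coordGroup v fun i => coord_mem hg i

/-- the coordinate group of a group of finite rank is finitely generated up to powers -/
lemma exists_finite_coordGroup (Γ : Subgroup (Pt n)) (hfin : FinRk (Additive Γ)) :
    ∃ F : Set Qbˣ, F.Finite ∧ ∀ y ∈ coordGroup Γ, ∃ m : ℕ, 0 < m ∧ y ^ m ∈ Subgroup.closure F := by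
  have hfd : FiniteDimensional ℚ (ℚ ⊗[ℤ] Additive Γ) := hfin
  obtain ⟨F, hF, hFΓ⟩ := exists_finite_of_rank (M := Additive Γ)
  refine ⟨{y | ∃ g ∈ F, ∃ i, y = ((Additive.toMul g : Γ) : Pt n) i}, ?_, ?_⟩
  · have : {y | ∃ g ∈ F, ∃ i, y = ((Additive.toMul g : Γ) : Pt n) i} =
        ⋃ g ∈ F, Set.range fun i => ((Additive.toMul g : Γ) : Pt n) i := by
      ext y
      simp only [Set.mem_ofPred_eq, Set.mem_iUnion, Set.mem_range, exists_prop]
      constructor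
      · rintro ⟨g, hg, i, rfl⟩
        exact ⟨g, hg, i, rfl⟩
      · rintro ⟨g, hg, i, rfl⟩
        exact ⟨g, hg, i, rfl⟩
    rw [this]
    exact hF.biUnion fun g _ => Set.finite_range _
  · intro y hy
    set C := Subgroup.closure {y | ∃ g ∈ F, ∃ i, y = ((Additive.toMul g : Γ) : Pt n) i} with hC
    have hCF : ∀ g ∈ AddSubgroup.closure F, ∀ i, ((Additive.toMul g : Γ) : Pt n) i ∈ C := by
      intro g hg
      induction hg using AddSubgroup.closure_induction with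
      | mem g hg => exact fun i => Subgroup.subset_closure ⟨g, hg, i, rfl⟩
      | zero => exact fun i => one_mem C
      | add a b _ _ ha hb => exact fun i => mul_mem (ha i) (hb i)
      | neg a _ ha => exact fun i => inv_mem (ha i)
    induction hy using Subgroup.closure_induction with
    | mem y hy =>
      obtain ⟨g, hg, i, rfl⟩ := hy
      obtain ⟨m, hm, h⟩ := hFΓ (Additive.ofMul ⟨g, hg⟩)
      exact ⟨m, hm, hCF _ h i⟩
    | one => exact ⟨1, one_pos, by rw [one_pow]; exact one_mem _⟩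
    | mul a b _ _ ha hb =>
      obtain ⟨m, hm, ha⟩ := ha
      obtain ⟨k, hk, hb⟩ := hb
      refine ⟨m * k, Nat.mul_pos hm hk, ?_⟩
      rw [mul_pow, pow_mul, mul_comm m k, pow_mul b]
      exact mul_mem (pow_mem ha _) (pow_mem hb _)
    | inv a _ ha =>
      obtain ⟨m, hm, ha⟩ := ha
      exact ⟨m, hm, by rw [inv_pow]; exact inv_mem ha⟩

end Pool.Agent.E8helper9.RM
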