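import Mathlib

set_option autoImplicit false

/-!
# The generalised Lehmer problem of Rémond on the torus: definitions

`G` is the torus of dimension `n` over the field of algebraic numbers.
-/

namespace Pool.Agent.E8helper9.RM

open scoped TensorProduct

/-- the field of algebraic numbers -/
abbrev Qb := AlgebraicClosure ℚ

/-- the points of the torus `G` of dimension `n` with algebraic coordinates -/
abbrev Pt (n : ℕ) := Fin n → Qbˣ

/-- the canonical height on `G`: the sum of the absolute logarithmic Weil heights of the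
coordinates -/
noncomputable def hG {n : ℕ} (x : Pt n) : ℝ := ∑ i, NumberField.absLogHeight₁ (x i : Qb)

/-- Zariski closed subsets of `G`: the sets of common zeros in `G` of polynomials with algebraic
coefficients -/
def IsZClosed {n : ℕ} (Z : Set (Pt n)) : Prop :=
  ∃ S : Set (MvPolynomial (Fin n) Qb),
    Z = {x | ∀ f ∈ S, MvPolynomial.eval (fun i => (x i : Qb)) f = 0}

/-- Zariski closed subsets of `G` defined over the field `L`: the polynomials may be taken with
coefficients in `L` -/
def IsClosedOver {n : ℕ} (L : IntermediateField ℚ Qb) (Z : Set (Pt n)) : Prop :=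
  ∃ S : Set (MvPolynomial (Fin n) Qb), (∀ f ∈ S, ∀ u, f.coeff u ∈ L) ∧
    Z = {x | ∀ f ∈ S, MvPolynomial.eval (fun i => (x i : Qb)) f = 0}

/-- subvarieties of `G`: the irreducible Zariski closed subsets -/
def IsSubvariety {n : ℕ} (V : Set (Pt n)) : Prop :=
  IsZClosed V ∧ V.Nonempty ∧
    ∀ A B : Set (Pt n), IsZClosed A → IsZClosed B → V ⊆ A ∪ B → V ⊆ A ∨ V ⊆ B

/-- the dimension of `Z` is `d`: the largest length of a chain of subvarieties inside `Z` -/
def HasDim {n : ℕ} (Z : Set (Pt n)) (d : ℕ) : Prop :=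
  Order.krullDim {W : Set (Pt n) // IsSubvariety W ∧ W ⊆ Z} = (d : WithBot ℕ∞)

/-- `Z` is equidimensional of dimension `d`: every irreducible component of `Z` (maximal subvariety
inside `Z`) has dimension `d` -/
def IsEquidim {n : ℕ} (Z : Set (Pt n)) (d : ℕ) : Prop :=
  ∀ W : Set (Pt n), IsSubvariety W → W ⊆ Z →
    (∀ W' : Set (Pt n), IsSubvariety W' → W' ⊆ Z → W ⊆ W' → W' = W) → HasDim W d

/-- the Hilbert function of the closure of `Z` in the product of `n` projective lines: the dimension
of the space of the restrictions to `Z` of the polynomials of degree at most `N` in each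
variable -/
noncomputable def hilb {n : ℕ} (Z : Set (Pt n)) (N : ℕ) : ℕ :=
  Set.finrank Qb {φ : Z → Qb | ∃ f : MvPolynomial (Fin n) Qb, (∀ i, f.degreeOf i ≤ N) ∧
    ∀ z : Z, φ z = MvPolynomial.eval (fun i => (z.1 i : Qb)) f}

/-- the degree, with respect to `O(1, …, 1)`, of a closed set `Z` equidimensional of dimension `d`:
the limit of `d! * (Hilbert function at N) / N ^ d` as `N` tends to infinity -/
noncomputable def degree {n : ℕ} (Z : Set (Pt n)) (d : ℕ) : ℝ :=
  Filter.limsup (fun N : ℕ => (d.factorial : ℝ) * (hilb Z N : ℝ) / (N : ℝ) ^ d) Filter.atTop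

/-- the obstruction index of `V` relative to the field `L` -/
noncomputable def obstruction {n : ℕ} (L : IntermediateField ℚ Qb) (V : Set (Pt n)) : ℝ :=
  sInf {w : ℝ | ∃ (Z : Set (Pt n)) (d : ℕ), Z ≠ Set.univ ∧ IsClosedOver L Z ∧ IsEquidim Z d ∧
    V ⊆ Z ∧ w = degree Z d ^ (1 / ((n : ℝ) - (d : ℝ)))}

/-- the essential minimum of `V`: the infimum of the real numbers `θ` such that the set of the
points of `V` of height at most `θ` is Zariski dense in `V` -/
noncomputable def essMin {n : ℕ} (V : Set (Pt n)) : ℝ :=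
  sInf {θ : ℝ | ∀ W : Set (Pt n), IsZClosed W → {x | x ∈ V ∧ hG x ≤ θ} ⊆ W → V ⊆ W}

/-- the rank of an abelian group `M`: the dimension of `ℚ ⊗ M` -/
noncomputable def rk (M : Type) [AddCommGroup M] : ℕ := Module.finrank ℚ (ℚ ⊗[ℤ] M)

/-- the abelian group `M` has finite rank: `ℚ ⊗ M` is finite dimensional -/
def FinRk (M : Type) [AddCommGroup M] : Prop := FiniteDimensional ℚ (ℚ ⊗[ℤ] M)

/-- `K(Γ)`, the field generated over `K` by the coordinates of the points of `Γ` -/
noncomputable def coordField {n : ℕ} (K : IntermediateField ℚ Qb) (Γ : Subgroup (Pt n)) :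
    IntermediateField ℚ Qb :=
  K ⊔ IntermediateField.adjoin ℚ {y | ∃ g ∈ Γ, ∃ i, y = (g i : Qb)}

/-- `Γ`-torsion subvarieties: the sets `γ B` with `B` a connected (that is, irreducible) algebraic
subgroup of `G` and `γ` in the saturation of `Γ`, that is, with a positive power in `Γ` -/
def IsTorsionVariety {n : ℕ} (Γ : Subgroup (Pt n)) (T : Set (Pt n)) : Prop :=
  ∃ B : Subgroup (Pt n), IsSubvariety (B : Set (Pt n)) ∧
    ∃ γ : Pt n, (∃ m : ℕ, 0 < m ∧ γ ^ m ∈ Γ) ∧ T = {x | ∃ b ∈ B, x = γ * b}

/-- `V` is `Γ`-transverse: it is contained in no proper `Γ`-torsion subvariety -/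
def IsTransverse {n : ℕ} (Γ : Subgroup (Pt n)) (V : Set (Pt n)) : Prop :=
  ∀ T : Set (Pt n), IsTorsionVariety Γ T → T ≠ Set.univ → ¬ V ⊆ T

/-- `Γ` is a Lehmer group (over the field `K`) -/
def IsLehmerGroup {n : ℕ} (K : IntermediateField ℚ Qb) (Γ : Subgroup (Pt n)) : Prop :=
  ∃ c : ℝ, 0 < c ∧ ∀ V : Set (Pt n), IsSubvariety V → V ≠ Set.univ → IsTransverse Γ V →
    c ≤ obstruction (coordField K Γ) V * essMin V

/-- `Γ` is equal to its saturation -/
def IsSaturated {n : ℕ} (Γ : Subgroup (Pt n)) : Prop :=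
  ∀ (x : Pt n) (m : ℕ), 0 < m → x ^ m ∈ Γ → x ∈ Γ

/-- the group generated by the coordinates of the points of `Γ` -/
noncomputable def coordGroup {n : ℕ} (Γ : Subgroup (Pt n)) : Subgroup Qbˣ :=
  Subgroup.closure {y | ∃ g ∈ Γ, ∃ i, y = g i}

/-- the group of the points of `G` all of whose coordinates are in `H`; these are the subgroups of
`G` which are stable under all endomorphisms of `G` -/
noncomputable def power {n : ℕ} (H : Subgroup Qbˣ) : Subgroup (Pt n) :=
  Subgroup.pi Set.univ fun _ => H

end Pool.Agent.E8helper9.RM
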