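import Pool.Agent.E8helper9.RM.Pos

set_option autoImplicit false

/-!
# Groups of small rank
-/

namespace Pool.Agent.E8helper9.RM

open scoped TensorProduct

variable {n : ℕ}

lemma sat_sat (Γ : Subgroup (Pt n)) : sat (sat Γ) = sat Γ := by
  apply le_antisymm
  · rintro x ⟨m, hm, k, hk, h⟩
    exact ⟨m * k, Nat.mul_pos hm hk, by rw [pow_mul]; exact h⟩
  · rintro x ⟨m, hm, h⟩
    exact ⟨m, hm, by
      refine ⟨1, one_pos, ?_⟩
      rw [pow_one]
      exact h⟩

/-- a common denominator -/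
lemma exists_integral (q : Fin n → ℚ) (hq : q ≠ 0) :
    ∃ v : Fin n → ℤ, v ≠ 0 ∧ ∃ N : ℚ, ∀ i, (v i : ℚ) = N * q i := by
  classical
  have h1 : ∀ i, ∃ a : ℤ, (a : ℚ) = (∏ j, ((q j).den : ℚ)) * q i := by
    intro i
    refine ⟨(∏ j ∈ Finset.univ.erase i, ((q j).den : ℤ)) * (q i).num, ?_⟩
    rw [← Finset.mul_prod_erase Finset.univ _ (Finset.mem_univ i)]
    push_cast
    have := Rat.den_mul_eq_num (q i)
    linear_combination -(∏ j ∈ Finset.univ.erase i, ((q j).den : ℚ)) * this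
  choose v hv using h1
  refine ⟨v, ?_, _, hv⟩
  rintro rfl
  apply hq
  funext i
  have h2 := hv i
  simp only [Pi.zero_apply, Int.cast_zero] at h2
  have h3 : (∏ j, ((q j).den : ℚ)) ≠ 0 :=
    Finset.prod_ne_zero_iff.2 fun j _ => Nat.cast_ne_zero.2 (q j).den_ne_zero
  rcases mul_eq_zero.1 h2.symm with h | h
  · exact absurd h h3
  · exact h

/-- a saturated group of positive rank less than `n` has a character image smaller than its
coordinate group -/
lemma exists_chi_of_rank {Γ : Subgroup (Pt n)} (hfin : FinRk (Additive Γ))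
    (h0 : 0 < rk (Additive Γ)) (hlt : rk (Additive Γ) < n) :
    ∃ v : Fin n → ℤ, v ≠ 0 ∧ Γ.map (chi v) ≠ coordGroup Γ := by
  classical
  have hfd : FiniteDimensional ℚ (ℚ ⊗[ℤ] Additive Γ) := hfin
  replace h0 : 0 < Module.finrank ℚ (ℚ ⊗[ℤ] Additive Γ) := h0
  replace hlt : Module.finrank ℚ (ℚ ⊗[ℤ] Additive Γ) < n := hlt
  -- a point of `Γ` of infinite order, and a coordinate of infinite order
  obtain ⟨g, hg⟩ : ∃ g : Γ, ∀ k : ℕ, 0 < k → g ^ k ≠ 1 := by
    by_contra hcon
    push Not at hcon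
    have hz : ∀ w : ℚ ⊗[ℤ] Additive Γ, w = 0 := by
      intro w
      induction w using TensorProduct.induction_on with
      | zero => rfl
      | tmul q x =>
        obtain ⟨k, hk, hk1⟩ := hcon (Additive.toMul x)
        have hx : k • x = 0 := hk1
        have hkq : (k : ℚ) ≠ 0 := by exact_mod_cast hk.ne'
        have : q ⊗ₜ[ℤ] x = (q / k) ⊗ₜ[ℤ] (k • x) := by
          rw [TensorProduct.tmul_smul, TensorProduct.smul_tmul', nsmul_eq_mul,
            mul_div_cancel₀ _ hkq]
        rw [this, hx, TensorProduct.tmul_zero]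
      | add a b ha hb => rw [ha, hb, add_zero]
    have : Subsingleton (ℚ ⊗[ℤ] Additive Γ) := ⟨fun a b => by rw [hz a, hz b]⟩
    rw [Module.finrank_zero_of_subsingleton] at h0
    exact lt_irrefl _ h0
  obtain ⟨i₀, hi₀⟩ : ∃ i, ∀ k : ℕ, 0 < k → (g : Pt n) i ^ k ≠ 1 := by
    by_contra hcon
    push Not at hcon
    choose k hk hk1 using hcon
    apply hg (∏ i, k i) (Finset.prod_pos fun i _ => hk i)
    apply Subtype.ext
    funext i
    show (g : Pt n) i ^ (∏ j, k j) = 1
    rw [← Finset.mul_prod_erase Finset.univ _ (Finset.mem_univ i), pow_mul, hk1 i, one_pow]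
  -- a homomorphism to the rational numbers
  set H := coordGroup Γ with hH
  let y : Additive H := Additive.ofMul ⟨(g : Pt n) i₀, coord_mem g.2 i₀⟩
  have hy : (1 : ℚ) ⊗ₜ[ℤ] y ≠ 0 := by
    intro h
    obtain ⟨k, hk, hk0⟩ := tmul_eq_zero h
    apply hi₀ k hk
    exact congrArg (fun z : Additive H => ((Additive.toMul z : H) : Qbˣ)) hk0
  obtain ⟨f, hf⟩ : ∃ f : Module.Dual ℚ (ℚ ⊗[ℤ] Additive H), f ((1 : ℚ) ⊗ₜ[ℤ] y) ≠ 0 := by
    by_contra hcon
    push Not at hcon
    exact hy ((Module.forall_dual_apply_eq_zero_iff ℚ _).1 hcon)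
  let φ : Additive H →+ ℚ :=
    { toFun := fun z => f ((1 : ℚ) ⊗ₜ[ℤ] z)
      map_zero' := by rw [TensorProduct.tmul_zero, map_zero]
      map_add' := fun a b => by rw [TensorProduct.tmul_add, map_add] }
  -- the map from the rank space to the space of dimension `n`
  let Fm : Additive Γ →+ (Fin n → ℚ) :=
    { toFun := fun x i => φ (Additive.ofMul ⟨((Additive.toMul x : Γ) : Pt n) i,
        coord_mem (Additive.toMul x).2 i⟩)
      map_zero' := by
        funext i
        show φ (Additive.ofMul ⟨1, _⟩) = 0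
        exact φ.map_zero
      map_add' := fun a b => by
        funext i
        exact φ.map_add (Additive.ofMul ⟨((Additive.toMul a : Γ) : Pt n) i,
          coord_mem (Additive.toMul a).2 i⟩) (Additive.ofMul ⟨((Additive.toMul b : Γ) : Pt n) i,
          coord_mem (Additive.toMul b).2 i⟩) }
  let L : ℚ ⊗[ℤ] Additive Γ →ₗ[ℚ] (Fin n → ℚ) := LinearMap.liftBaseChange ℚ Fm.toIntLinearMap
  have hrange : LinearMap.range L < ⊤ := by
    rw [lt_top_iff_ne_top]
    intro htop
    have h1 := LinearMap.finrank_range_le L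
    rw [htop, finrank_top, Module.finrank_fin_fun] at h1
    omega
  obtain ⟨e, he, hker⟩ := Submodule.exists_le_ker_of_lt_top _ hrange
  let q : Fin n → ℚ := fun i => e (Pi.single i 1)
  have hq : q ≠ 0 := by
    intro h
    apply he
    apply LinearMap.pi_ext'
    intro i
    apply LinearMap.ext_ring
    exact congrFun h i
  obtain ⟨v, hv, N, hN⟩ := exists_integral q hq
  refine ⟨v, hv, fun heq => hf ?_⟩
  -- the homomorphism vanishes on the image of the character
  have hmem : (g : Pt n) i₀ ∈ Γ.map (chi v) := by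
    rw [heq]
    exact coord_mem g.2 i₀
  obtain ⟨γ, hγ, hγy⟩ := hmem
  have h1 : e (L ((1 : ℚ) ⊗ₜ[ℤ] Additive.ofMul (⟨γ, hγ⟩ : Γ))) = 0 := hker ⟨_, rfl⟩
  have h2 : L ((1 : ℚ) ⊗ₜ[ℤ] Additive.ofMul (⟨γ, hγ⟩ : Γ)) =
      fun i => φ (Additive.ofMul ⟨γ i, coord_mem hγ i⟩) := by
    rw [LinearMap.liftBaseChange_tmul, one_smul]
    rfl
  have h3 : ∀ x : Fin n → ℚ, e x = ∑ i, x i * q i := by
    intro x
    conv_lhs => rw [pi_eq_sum_univ' x]
    rw [map_sum]
    refine Finset.sum_congr rfl fun i _ => ?_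
    rw [map_smul, smul_eq_mul]
  rw [h2, h3] at h1
  have h4 : φ y = ∑ i, (v i : ℚ) * φ (Additive.ofMul ⟨γ i, coord_mem hγ i⟩) := by
    have hyv : y = ∑ i, v i • (Additive.ofMul (⟨γ i, coord_mem hγ i⟩ : H)) := by
      apply Additive.toMul.injective
      apply Subtype.ext
      show (g : Pt n) i₀ = _
      rw [← hγy, chi_apply, toMul_sum]
      rw [Subgroup.val_finsetProd]
      rfl
    rw [hyv, map_sum]
    refine Finset.sum_congr rfl fun i _ => ?_
    rw [map_zsmul, zsmul_eq_mul]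
  show φ y = 0
  rw [h4]
  have h5 : ∑ i, (v i : ℚ) * φ (Additive.ofMul ⟨γ i, coord_mem hγ i⟩) =
      N * ∑ i, φ (Additive.ofMul ⟨γ i, coord_mem hγ i⟩) * q i := by
    rw [Finset.mul_sum]
    refine Finset.sum_congr rfl fun i _ => ?_
    rw [hN i]
    ring
  rw [h5, h1, mul_zero]

/-- a saturated group of rank one -/
lemma exists_rank_one (hn : 1 ≤ n) :
    ∃ Γ : Subgroup (Pt n), IsSaturated Γ ∧ rk (Additive Γ) = 1 := by
  set two : Qbˣ := Units.mk0 (2 : Qb) two_ne_zero with htwo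
  set g : Pt n := Pi.mulSingle ⟨0, hn⟩ two with hg
  refine ⟨sat (Subgroup.zpowers g), fun x m hm hx => ?_, ?_⟩
  · have h1 : x ∈ sat (sat (Subgroup.zpowers g)) := ⟨m, hm, hx⟩
    rwa [sat_sat] at h1
  have hgmem : g ∈ sat (Subgroup.zpowers g) := by
    refine ⟨1, one_pos, ?_⟩
    rw [pow_one]
    exact Subgroup.mem_zpowers g
  refine finrank_eq_one (Additive.ofMul (⟨g, hgmem⟩ : sat (Subgroup.zpowers g))) ?_ ?_
  · intro k hk h
    have h1 : g ^ k = 1 := congrArg
      (fun z : Additive (sat (Subgroup.zpowers g)) =>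
        ((Additive.toMul z : sat (Subgroup.zpowers g)) : Pt n)) h
    have h2 := congrFun h1 ⟨0, hn⟩
    rw [Pi.pow_apply, hg, Pi.mulSingle_eq_same, Pi.one_apply, ← zpow_natCast] at h2
    have := two_zpow h2
    omega
  · intro x
    obtain ⟨m, hm, hxm⟩ := (Additive.toMul x).2
    obtain ⟨k, hk⟩ := Subgroup.mem_zpowers_iff.1 hxm
    refine ⟨m, hm, k, ?_⟩
    apply Additive.toMul.injective
    apply Subtype.ext
    exact hk.symm

end Pool.Agent.E8helper9.RM
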