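import Pool.Agent.E8helper9.RM.Crit

set_option autoImplicit false

/-!
# Groups which are not Lehmer groups
-/

namespace Pool.Agent.E8helper9.RM

open Pool.Agent.H58P (ht)

variable {n : ℕ}

/-- the `D`-th roots of a number -/
lemma exists_roots_finset (D : ℕ) (hD : 0 < D) (a : Qbˣ) :
    ∃ T : Finset Qbˣ, (∀ r : Qbˣ, r ^ D = a → r ∈ T) ∧ T.card ≤ D := by
  classical
  let T0 : Finset Qb := (Polynomial.nthRoots D (a : Qb)).toFinset
  have h0 : T0.card ≤ D :=
    (Multiset.toFinset_card_le _).trans (Polynomial.card_nthRoots D (a : Qb))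
  refine ⟨T0.preimage Units.val (Units.val_injective.injOn), ?_, ?_⟩
  · intro r hr
    rw [Finset.mem_preimage, Multiset.mem_toFinset, Polynomial.mem_nthRoots hD,
      ← Units.val_pow_eq_pow_val, hr]
  · refine le_trans ?_ h0
    exact Finset.card_le_card_of_injOn Units.val (fun r hr => Finset.mem_preimage.1 hr)
      (Units.val_injective.injOn)

/-- the finite set used to bound the obstruction index -/
lemma finite_card (i₀ : Fin n) (v : Fin n → ℤ) (hv : v i₀ ≠ 0) (D : ℕ) (hD : 0 < D)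
    (a : Fin n → Qbˣ) (y : Qbˣ) :
    {x : Pt n | (∀ i, i ≠ i₀ → x i ^ D = a i) ∧ chi v x = y}.Finite ∧
    {x : Pt n | (∀ i, i ≠ i₀ → x i ^ D = a i) ∧ chi v x = y}.ncard ≤
      D ^ (n - 1) * (v i₀).natAbs := by
  classical
  have hvpos : 0 < (v i₀).natAbs := Int.natAbs_pos.2 hv
  choose T hT hTc using fun i => exists_roots_finset D hD (a i)
  obtain ⟨T1, hT1, hT1c⟩ := exists_roots_finset _ hvpos (1 : Qbˣ)
  choose ρ hρ using fun q : Qbˣ => exists_zroot q hv
  let S : Fin n → Finset Qbˣ := fun i => if i = i₀ then T1 else T i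
  let Φ : Pt n → Pt n := fun s => Function.update s i₀
    (ρ (y * (∏ i ∈ Finset.univ.erase i₀, s i ^ v i)⁻¹) * s i₀)
  set Z := {x : Pt n | (∀ i, i ≠ i₀ → x i ^ D = a i) ∧ chi v x = y} with hZ
  have hsub : Z ⊆ ((Fintype.piFinset S).image Φ : Finset (Pt n)) := by
    rintro x ⟨hx1, hx2⟩
    rw [Finset.mem_coe, Finset.mem_image]
    set q := y * (∏ i ∈ Finset.univ.erase i₀, x i ^ v i)⁻¹ with hq
    have hxq : x i₀ ^ v i₀ = q := by
      rw [hq, ← hx2, chi_apply, ← Finset.mul_prod_erase Finset.univ _ (Finset.mem_univ i₀),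
        mul_inv_cancel_right]
    refine ⟨Function.update x i₀ ((ρ q)⁻¹ * x i₀), ?_, ?_⟩
    · rw [Fintype.mem_piFinset]
      intro i
      by_cases hi : i = i₀
      · subst hi
        simp only [S, if_pos, Function.update_self]
        apply hT1
        have h1 : ((ρ q)⁻¹ * x i) ^ v i = 1 := by
          rw [mul_zpow, inv_zpow, hρ q, hxq, inv_mul_cancel]
        rcases Int.natAbs_eq (v i) with h | h
        · rw [h, zpow_natCast] at h1
          exact h1
        · rw [h, zpow_neg, zpow_natCast, inv_eq_one] at h1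
          exact h1
      · simp only [S, if_neg hi, Function.update_of_ne hi]
        exact hT i _ (hx1 i hi)
    · have h2 : ∏ i ∈ Finset.univ.erase i₀,
          (Function.update x i₀ ((ρ q)⁻¹ * x i₀)) i ^ v i =
          ∏ i ∈ Finset.univ.erase i₀, x i ^ v i :=
        Finset.prod_congr rfl fun i hi => by
          rw [Function.update_of_ne (Finset.ne_of_mem_erase hi)]
      simp only [Φ, h2, ← hq, Function.update_self, mul_inv_cancel_left,
        Function.update_idem, Function.update_eq_self]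
  refine ⟨(Finset.finite_toSet _).subset hsub, ?_⟩
  refine (Set.ncard_le_ncard hsub (Finset.finite_toSet _)).trans ?_
  rw [Set.ncard_coe_finset]
  refine Finset.card_image_le.trans ?_
  rw [Fintype.card_piFinset, ← Finset.mul_prod_erase Finset.univ _ (Finset.mem_univ i₀)]
  have h3 : (S i₀).card ≤ (v i₀).natAbs := by
    simp only [S, if_pos]
    exact hT1c
  have h4 : ∏ i ∈ Finset.univ.erase i₀, (S i).card ≤ D ^ (n - 1) := by
    have : ∏ i ∈ Finset.univ.erase i₀, (S i).card ≤ ∏ i ∈ Finset.univ.erase i₀, D := by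
      refine Finset.prod_le_prod' fun i hi => ?_
      simp only [S, if_neg (Finset.ne_of_mem_erase hi)]
      exact hTc i
    refine this.trans ?_
    rw [Finset.prod_const, Finset.card_erase_of_mem (Finset.mem_univ i₀), Finset.card_univ,
      Fintype.card_fin]
  calc (S i₀).card * ∏ i ∈ Finset.univ.erase i₀, (S i).card
      ≤ (v i₀).natAbs * D ^ (n - 1) := Nat.mul_le_mul h3 h4
    _ = D ^ (n - 1) * (v i₀).natAbs := mul_comm _ _

lemma isClosedOver_of_aeval {L : IntermediateField ℚ Qb} {Z : Set (Pt n)}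
    (h : ∃ S : Set (MvPolynomial (Fin n) L),
      Z = {x | ∀ f ∈ S, MvPolynomial.aeval (fun i => (x i : Qb)) f = 0}) : IsClosedOver L Z := by
  obtain ⟨S, rfl⟩ := h
  refine ⟨(MvPolynomial.map (algebraMap L Qb)) '' S, ?_, ?_⟩
  · rintro _ ⟨f, _, rfl⟩ u
    rw [MvPolynomial.coeff_map]
    exact (f.coeff u).2
  · ext x
    simp only [Set.mem_ofPred_eq, Set.forall_mem_image, MvPolynomial.eval_map,
      MvPolynomial.aeval_def]

/-- this finite set is defined over the field of the data -/
lemma closedOver (L : IntermediateField ℚ Qb) (i₀ : Fin n) (v : Fin n → ℤ) (D : ℕ)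
    (a : Fin n → Qbˣ) (y : Qbˣ) (ha : ∀ i, (a i : Qb) ∈ L) (hy : (y : Qb) ∈ L) :
    IsClosedOver L {x : Pt n | (∀ i, i ≠ i₀ → x i ^ D = a i) ∧ chi v x = y} := by
  classical
  apply isClosedOver_of_aeval
  refine ⟨{f | (∃ i, i ≠ i₀ ∧ f = MvPolynomial.X i ^ D - MvPolynomial.C (⟨a i, ha i⟩ : L)) ∨
    f = ∏ i, MvPolynomial.X i ^ (v i).toNat -
      MvPolynomial.C (⟨y, hy⟩ : L) * ∏ i, MvPolynomial.X i ^ (-v i).toNat}, ?_⟩
  have hkey : ∀ x : Pt n, chi v x = y ↔ ∏ i, (x i : Qb) ^ (v i).toNat =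
      (y : Qb) * ∏ i, (x i : Qb) ^ (-v i).toNat := by
    intro x
    have h1 : chi v x * ∏ i, x i ^ (-v i).toNat = ∏ i, x i ^ (v i).toNat := by
      rw [chi_apply, ← Finset.prod_mul_distrib]
      refine Finset.prod_congr rfl fun i _ => ?_
      rw [← zpow_natCast, ← zpow_natCast, ← zpow_add]
      congr 1
      have := Int.toNat_sub_toNat_neg (v i)
      omega
    have h2 : ((∏ i, x i ^ (-v i).toNat : Qbˣ) : Qb) = ∏ i, (x i : Qb) ^ (-v i).toNat := by
      rw [Units.coe_prod]
      simp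
    have h3 : ((∏ i, x i ^ (v i).toNat : Qbˣ) : Qb) = ∏ i, (x i : Qb) ^ (v i).toNat := by
      rw [Units.coe_prod]
      simp
    rw [← h2, ← h3, ← h1, ← Units.val_mul, Units.val_inj]
    constructor
    · intro h
      rw [h]
    · intro h
      exact mul_right_cancel h
  ext x
  simp only [Set.mem_ofPred_eq]
  constructor
  · rintro ⟨hx1, hx2⟩ f (⟨i, hi, rfl⟩ | rfl)
    · rw [map_sub, map_pow, MvPolynomial.aeval_X, MvPolynomial.algHom_C, sub_eq_zero,
        ← Units.val_pow_eq_pow_val, hx1 i hi]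
      rfl
    · rw [map_sub, map_prod, map_mul, map_prod, MvPolynomial.algHom_C, sub_eq_zero]
      simp only [map_pow, MvPolynomial.aeval_X]
      exact (hkey x).1 hx2
  · intro h
    refine ⟨fun i hi => ?_, ?_⟩
    · have h1 := h _ (Or.inl ⟨i, hi, rfl⟩)
      rw [map_sub, map_pow, MvPolynomial.aeval_X, MvPolynomial.algHom_C, sub_eq_zero,
        ← Units.val_pow_eq_pow_val] at h1
      exact Units.ext h1
    · have h1 := h _ (Or.inr rfl)
      rw [map_sub, map_prod, map_mul, map_prod, MvPolynomial.algHom_C, sub_eq_zero] at h1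
      simp only [map_pow, MvPolynomial.aeval_X] at h1
      exact (hkey x).2 h1

end Pool.Agent.E8helper9.RM
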