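import Pool.Agent.E8helper9.RM.Neg

set_option autoImplicit false

/-!
# A saturated group with a character image smaller than the coordinate group is not a Lehmer group
-/

namespace Pool.Agent.E8helper9.RM

open Pool.Agent.H58P (ht)
open Pool.Agent.H58R (ht_nonneg ht_mul_le ht_one ht_zpow ht_prod_le)
open Pool.Agent.H58B (ht_pow)

variable {n : ℕ}

lemma prod_zpow_sum {ι : Type*} (s : Finset ι) (r : Qbˣ) (e : ι → ℤ) :
    ∏ i ∈ s, r ^ e i = r ^ ∑ i ∈ s, e i := by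
  classical
  induction s using Finset.induction_on with
  | empty => simp
  | insert a s ha ih => rw [Finset.prod_insert ha, Finset.sum_insert ha, zpow_add, ih]

/-- the exponents -/
def expo (i₀ : Fin n) (v : Fin n → ℤ) (i j : Fin n) : ℤ :=
  (if i = j then v i₀ else 0) - (if i = i₀ then v j else 0)

/-- the point with these exponents -/
noncomputable def bpt (i₀ : Fin n) (v : Fin n → ℤ) (r : Fin n → Qbˣ) : Pt n :=
  fun i => ∏ j, r j ^ expo i₀ v i j

lemma chi_bpt (i₀ : Fin n) (v w : Fin n → ℤ) (r : Fin n → Qbˣ) :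
    chi w (bpt i₀ v r) = ∏ j, r j ^ (w j * v i₀ - w i₀ * v j) := by
  rw [chi_apply]
  unfold bpt
  have h1 : ∀ i, (∏ j, r j ^ expo i₀ v i j) ^ w i = ∏ j, r j ^ (w i * expo i₀ v i j) := by
    intro i
    rw [← Finset.prod_zpow]
    refine Finset.prod_congr rfl fun j _ => ?_
    rw [← zpow_mul, mul_comm]
  rw [Finset.prod_congr rfl fun i _ => h1 i, Finset.prod_comm]
  refine Finset.prod_congr rfl fun j _ => ?_
  rw [prod_zpow_sum]
  congr 1
  unfold expo
  simp only [mul_sub, Finset.sum_sub_distrib, mul_ite, mul_zero, Finset.sum_ite_eq',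
    Finset.mem_univ, if_true]

lemma bpt_of_ne (i₀ : Fin n) (v : Fin n → ℤ) (r : Fin n → Qbˣ) {i : Fin n} (hi : i ≠ i₀) :
    bpt i₀ v r i = r i ^ v i₀ := by
  unfold bpt expo
  rw [Finset.prod_eq_single i]
  · simp [hi]
  · intro j _ hj
    simp [hi, Ne.symm hj]
  · intro h
    exact absurd (Finset.mem_univ i) h

lemma mem_coordField {K : IntermediateField ℚ Qb} {Γ : Subgroup (Pt n)} {y : Qbˣ}
    (hy : y ∈ coordGroup Γ) : (y : Qb) ∈ coordField K Γ := by
  induction hy using Subgroup.closure_induction with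
  | mem y hy =>
    obtain ⟨g, hg, i, rfl⟩ := hy
    exact (le_sup_right : _ ≤ coordField K Γ) (IntermediateField.subset_adjoin _ _ ⟨g, hg, i, rfl⟩)
  | one => rw [Units.val_one]; exact one_mem _
  | mul x y _ _ hx hy => rw [Units.val_mul]; exact mul_mem hx hy
  | inv x _ hx => rw [Units.val_inv_eq_inv_val]; exact inv_mem hx

/-- transversality of the points used below -/
lemma transverse_aux {Γ : Subgroup (Pt n)} (hΓ : sat Γ = Γ) (i₀ : Fin n)
    (v : Fin n → ℤ) (hv : v i₀ ≠ 0) (F : Set Qbˣ)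
    (hF : ∀ y ∈ coordGroup Γ, ∃ m : ℕ, 0 < m ∧ y ^ m ∈ Subgroup.closure F)
    (u : Fin n → Qbˣ)
    (hu : ∀ a : Fin n → ℤ, ∀ m : ℕ, 0 < m → (∏ i, u i ^ a i) ^ m ∈ Subgroup.closure F → a = 0)
    (D : ℕ) (r : Fin n → Qbˣ) (hr : ∀ j, r j ^ D = u j)
    (y : Qbˣ) (hyΓ : y ∈ coordGroup Γ) (hy : y ∉ Γ.map (chi v)) (z : Qbˣ) (hz : z ^ v i₀ = y) :
    IsTransverse Γ {bpt i₀ v r * Pi.mulSingle i₀ z} := by
  apply isTransverse_of_chi
  intro w hw γ hγ heq
  replace hγ : γ ∈ sat Γ := hγ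
  rw [hΓ] at hγ
  rw [map_mul, chi_mulSingle] at heq
  have hv0 : v ≠ 0 := fun h => hv (by rw [h]; rfl)
  -- the exponents vanish
  have h1 : (chi w (bpt i₀ v r)) ^ v i₀ ∈ coordGroup Γ := by
    have e : (chi w (bpt i₀ v r)) ^ v i₀ = (chi w γ) ^ v i₀ * (y ^ w i₀)⁻¹ := by
      rw [← heq, mul_zpow, ← zpow_mul z, mul_comm (w i₀), zpow_mul z, hz, mul_inv_cancel_right]
    rw [e]
    exact mul_mem (zpow_mem (chi_mem_coordGroup w fun i => coord_mem hγ i) _)
      (inv_mem (zpow_mem hyΓ _))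
  have h2 : (chi w (bpt i₀ v r)) ^ D = ∏ j, u j ^ (w j * v i₀ - w i₀ * v j) := by
    rw [chi_bpt, ← Finset.prod_pow]
    refine Finset.prod_congr rfl fun j _ => ?_
    rw [← hr j, ← zpow_natCast, ← zpow_natCast, ← zpow_mul, ← zpow_mul, mul_comm]
  have h3 : ∏ j, u j ^ ((w j * v i₀ - w i₀ * v j) * v i₀) ∈ coordGroup Γ := by
    have e : ∏ j, u j ^ ((w j * v i₀ - w i₀ * v j) * v i₀) =
        ((chi w (bpt i₀ v r)) ^ v i₀) ^ D := by
      rw [← zpow_natCast, ← zpow_mul, mul_comm (v i₀), zpow_mul, zpow_natCast, h2,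
        ← Finset.prod_zpow]
      refine Finset.prod_congr rfl fun j _ => ?_
      rw [zpow_mul]
    rw [e]
    exact pow_mem h1 D
  obtain ⟨m, hm, hmem⟩ := hF _ h3
  have h4 := hu _ m hm hmem
  have h5 : ∀ j, w j * v i₀ = w i₀ * v j := by
    intro j
    have := congrFun h4 j
    simp only [Pi.zero_apply] at this
    rcases mul_eq_zero.1 this with h | h
    · linarith
    · exact absurd h hv
  have hw0 : w i₀ ≠ 0 := by
    intro h
    apply hw
    funext j
    have := h5 j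
    rw [h, zero_mul] at this
    rcases mul_eq_zero.1 this with h | h
    · exact h
    · exact absurd h hv
  have h6 : chi w (bpt i₀ v r) = 1 := by
    rw [chi_bpt]
    refine Finset.prod_eq_one fun j _ => ?_
    rw [h5 j, sub_self, zpow_zero]
  rw [h6, one_mul] at heq
  -- the value `y` would be in the image
  apply hy
  apply root_mem_map_chi_z hΓ hv0 hw0
  refine ⟨γ ^ w i₀, zpow_mem hγ _, ?_⟩
  rw [map_zpow]
  have h7 : (chi w γ) ^ v i₀ = (chi v γ) ^ w i₀ := by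
    rw [chi_apply, chi_apply, ← Finset.prod_zpow, ← Finset.prod_zpow]
    refine Finset.prod_congr rfl fun j _ => ?_
    rw [← zpow_mul, ← zpow_mul, h5 j, mul_comm]
  rw [← h7, ← heq, ← zpow_mul, mul_comm, zpow_mul, hz]

/-- the height of the points used below -/
lemma height_aux (i₀ : Fin n) (v : Fin n → ℤ) (hv : v i₀ ≠ 0) (u r : Fin n → Qbˣ) (D : ℕ)
    (hD : 0 < D) (hr : ∀ j, r j ^ D = u j) (y₀ y z : Qbˣ) (m : ℕ) (hm : 0 < m) (hy : y ^ m = y₀)
    (hz : z ^ v i₀ = y) :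
    hG (bpt i₀ v r * Pi.mulSingle i₀ z) ≤
      (∑ i, ∑ j, |(expo i₀ v i j : ℝ)| * ht (u j : Qb)) / D + ht (y₀ : Qb) / m := by
  have hDR : (0 : ℝ) < D := by exact_mod_cast hD
  have hmR : (0 : ℝ) < m := by exact_mod_cast hm
  have h1 : ∀ j, ht (r j : Qb) = ht (u j : Qb) / D := by
    intro j
    rw [← hr j, Units.val_pow_eq_pow_val, ht_pow]
    field_simp
  have h2 : ht (y : Qb) = ht (y₀ : Qb) / m := by
    rw [← hy, Units.val_pow_eq_pow_val, ht_pow]
    field_simp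
  have h3 : ht (z : Qb) ≤ ht (y : Qb) := by
    rw [← hz, Units.val_zpow_eq_zpow_val, ht_zpow _ z.ne_zero]
    have h4 : (1 : ℝ) ≤ |(v i₀ : ℝ)| := by
      rw [← Int.cast_abs]
      exact_mod_cast Int.one_le_abs hv
    nlinarith [ht_nonneg (z : Qb)]
  have h5 : ∀ i, NumberField.absLogHeight₁ (((bpt i₀ v r * Pi.mulSingle i₀ z : Pt n) i : Qbˣ) : Qb) ≤
      (∑ j, |(expo i₀ v i j : ℝ)| * ht (u j : Qb)) / D +
        ht (((Pi.mulSingle i₀ z : Pt n) i : Qbˣ) : Qb) := by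
    intro i
    rw [Pool.Agent.H58P.absLogHeight₁_eq, Pi.mul_apply, Units.val_mul]
    refine (ht_mul_le _ _).trans ?_
    gcongr
    unfold bpt
    rw [Units.coe_prod]
    refine (ht_prod_le _ _).trans ?_
    rw [Finset.sum_div]
    refine Finset.sum_le_sum fun j _ => ?_
    rw [Units.val_zpow_eq_zpow_val, ht_zpow _ (r j).ne_zero, h1 j, mul_div_assoc]
  unfold hG
  refine (Finset.sum_le_sum fun i _ => h5 i).trans ?_
  rw [Finset.sum_add_distrib, Finset.sum_div]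
  have h6 : ∑ i, ht (((Pi.mulSingle i₀ z : Pt n) i : Qbˣ) : Qb) = ht (z : Qb) := by
    rw [Finset.sum_eq_single i₀]
    · rw [Pi.mulSingle_eq_same]
    · intro j _ hj
      rw [Pi.mulSingle_eq_of_ne hj, Units.val_one, ht_one]
    · intro h
      exact absurd (Finset.mem_univ i₀) h
  rw [h6]
  linarith

theorem not_lehmer_of_chi (hn : 1 ≤ n) {K : IntermediateField ℚ Qb} {Γ : Subgroup (Pt n)}
    (hΓ : sat Γ = Γ) (hfin : FinRk (Additive Γ)) (v : Fin n → ℤ) (hv : v ≠ 0)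
    (hne : Γ.map (chi v) ≠ coordGroup Γ) : ¬ IsLehmerGroup K Γ := by
  obtain ⟨y₀, hy₀, hy₀v⟩ : ∃ y₀ ∈ coordGroup Γ, y₀ ∉ Γ.map (chi v) := by
    by_contra hcon
    push Not at hcon
    exact hne (le_antisymm (map_chi_le Γ v) hcon)
  obtain ⟨i₀, hi₀⟩ : ∃ i, v i ≠ 0 := by
    by_contra hcon
    push Not at hcon
    exact hv (funext hcon)
  obtain ⟨F, hFfin, hF⟩ := exists_finite_coordGroup Γ hfin
  obtain ⟨t, u, htu, hu⟩ := exists_independent_primes F hFfin n
  set C₁ : ℝ := ∑ i, ∑ j, |(expo i₀ v i j : ℝ)| * ht (u j : Qb) with hC₁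
  set C₂ : ℝ := ht (y₀ : Qb) with hC₂
  have hC₁0 : 0 ≤ C₁ := Finset.sum_nonneg fun i _ => Finset.sum_nonneg fun j _ =>
    mul_nonneg (abs_nonneg _) (ht_nonneg _)
  have hC₂0 : 0 ≤ C₂ := ht_nonneg _
  set V : ℕ := (v i₀).natAbs with hV
  have hVpos : 0 < V := Int.natAbs_pos.2 hi₀
  apply not_isLehmerGroup hn
  intro c hc
  obtain ⟨k', hk'⟩ := exists_nat_gt (2 * V * C₁ / c)
  set k := k' + 1 with hk
  have hkpos : 0 < k := Nat.succ_pos _
  have hkR : (0 : ℝ) < k := by exact_mod_cast hkpos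
  have hkgt : 2 * V * C₁ / c < k := hk'.trans (by rw [hk]; push_cast; linarith)
  obtain ⟨m', hm'⟩ := exists_nat_gt (2 * (k : ℝ) ^ (n - 1) * V * C₂ / c)
  set m := m' + 1 with hm
  have hmpos : 0 < m := Nat.succ_pos _
  have hmR : (0 : ℝ) < m := by exact_mod_cast hmpos
  have hmgt : 2 * (k : ℝ) ^ (n - 1) * V * C₂ / c < m :=
    hm'.trans (by rw [hm]; push_cast; linarith)
  set D := k ^ n with hD
  have hDpos : 0 < D := Nat.pow_pos hkpos
  choose r hr using fun j => exists_root (u j) hDpos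
  obtain ⟨y, hyΓ, hy⟩ := exists_root_coordGroup hΓ hy₀ hmpos
  obtain ⟨z, hz⟩ := exists_zroot y hi₀
  have hyv : y ∉ Γ.map (chi v) := by
    intro h
    apply hy₀v
    rw [← hy]
    exact pow_mem h m
  obtain ⟨hfinZ, hcard⟩ := finite_card i₀ v hi₀ D hDpos (fun i => u i ^ v i₀) y
  refine ⟨bpt i₀ v r * Pi.mulSingle i₀ z, _, hfinZ, ?_, ?_, ?_, ?_⟩
  · apply closedOver
    · intro i
      rw [Units.val_zpow_eq_zpow_val, htu i]
      exact zpow_mem (natCast_mem _ _) _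
    · exact mem_coordField hyΓ
  · refine ⟨fun i hi => ?_, ?_⟩
    · rw [Pi.mul_apply, bpt_of_ne i₀ v r hi, Pi.mulSingle_eq_of_ne hi, mul_one, ← zpow_natCast,
        ← zpow_mul, mul_comm, zpow_mul, zpow_natCast, hr i]
    · rw [map_mul, chi_mulSingle, chi_bpt, hz]
      have : ∏ j, r j ^ (v j * v i₀ - v i₀ * v j) = 1 :=
        Finset.prod_eq_one fun j _ => by rw [mul_comm, sub_self, zpow_zero]
      rw [this, one_mul]
  · exact transverse_aux hΓ i₀ v hi₀ F hF u hu D r hr y hyΓ hyv z hz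
  · have hh := height_aux i₀ v hi₀ u r D hDpos hr y₀ y z m hmpos hy hz
    rw [← hC₁, ← hC₂] at hh
    have hnR : (0 : ℝ) < n := by exact_mod_cast hn
    have hcardR : ((Set.ncard {x : Pt n | (∀ i, i ≠ i₀ → x i ^ D = u i ^ v i₀) ∧
        chi v x = y} : ℕ) : ℝ) ^ (1 / (n : ℝ)) ≤ (k : ℝ) ^ (n - 1) * V := by
      have h1 : ((Set.ncard {x : Pt n | (∀ i, i ≠ i₀ → x i ^ D = u i ^ v i₀) ∧
          chi v x = y} : ℕ) : ℝ) ≤ ((k : ℝ) ^ (n - 1) * V) ^ n := by
        have h2 : D ^ (n - 1) * V ≤ (k ^ (n - 1) * V) ^ n := by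
          rw [mul_pow, hD, ← pow_mul, ← pow_mul, mul_comm n]
          exact Nat.mul_le_mul_left _ (Nat.le_self_pow (by omega) V)
        have h3 := hcard.trans h2
        exact_mod_cast h3
      have h0 : (0 : ℝ) ≤ (k : ℝ) ^ (n - 1) * V := by positivity
      calc _ ≤ (((k : ℝ) ^ (n - 1) * V) ^ n) ^ (1 / (n : ℝ)) :=
            Real.rpow_le_rpow (by positivity) h1 (by positivity)
        _ = (k : ℝ) ^ (n - 1) * V := by
            rw [one_div]
            exact Real.pow_rpow_inv_natCast h0 (by omega)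
    have hhG := hG_nonneg (bpt i₀ v r * Pi.mulSingle i₀ z)
    have hVR : (0 : ℝ) < V := by exact_mod_cast hVpos
    refine lt_of_le_of_lt (mul_le_mul hcardR hh hhG (by positivity)) ?_
    have e1 : (k : ℝ) ^ (n - 1) * V * (C₁ / (D : ℝ) + C₂ / m) =
        V * C₁ / k + (k : ℝ) ^ (n - 1) * V * C₂ / m := by
      have hDk : (D : ℝ) = (k : ℝ) ^ (n - 1) * k := by
        rw [hD]
        push_cast
        rw [← pow_succ]
        congr 1
        omega
      have hkp : (k : ℝ) ^ (n - 1) ≠ 0 := by positivity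
      rw [hDk]
      field_simp
    rw [e1]
    have h1 : V * C₁ / k < c / 2 := by
      rw [div_lt_iff₀ hkR]
      rw [div_lt_iff₀ hc] at hkgt
      linarith
    have h2 : (k : ℝ) ^ (n - 1) * V * C₂ / m < c / 2 := by
      rw [div_lt_iff₀ hmR]
      rw [div_lt_iff₀ hc] at hmgt
      linarith
    linarith

end Pool.Agent.E8helper9.RM
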