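import Pool.Agent.E8helper9.RM.Neg2

set_option autoImplicit false

/-!
# Transversality for a group and for the power of its coordinate group
-/

namespace Pool.Agent.E8helper9.RM

variable {n : ℕ}

/-- a polynomial which vanishes on `G` is zero -/
lemma eq_zero_of_vanish (f : MvPolynomial (Fin n) Qb)
    (h : ∀ x : Pt n, MvPolynomial.eval (fun i => (x i : Qb)) f = 0) : f = 0 := by
  refine MvPolynomial.funext_set (fun _ : Fin n => ({0}ᶜ : Set Qb)) (fun _ => ?_) ?_
  · exact Set.Finite.infinite_compl (Set.finite_singleton 0)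
  · intro x hx
    rw [map_zero]
    have hx0 : ∀ i, x i ≠ 0 := fun i => hx i (Set.mem_univ i)
    exact h fun i => Units.mk0 (x i) (hx0 i)

lemma univ_irred {A B : Set (Pt n)} (hA : IsZClosed A) (hB : IsZClosed B)
    (h : ∀ x, x ∈ A ∨ x ∈ B) : (∀ x, x ∈ A) ∨ (∀ x, x ∈ B) := by
  obtain ⟨S, rfl⟩ := hA
  obtain ⟨T, rfl⟩ := hB
  by_contra hcon
  push Not at hcon
  obtain ⟨⟨x, hx⟩, y, hy⟩ := hcon
  simp only [Set.mem_ofPred_eq] at hx hy h
  push Not at hx hy
  obtain ⟨f, hf, hfx⟩ := hx
  obtain ⟨g, hg, hgy⟩ := hy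
  have h1 : f * g = 0 := by
    apply eq_zero_of_vanish
    intro z
    rw [map_mul]
    rcases h z with h | h
    · rw [h f hf, zero_mul]
    · rw [h g hg, mul_zero]
  rcases mul_eq_zero.1 h1 with h | h
  · rw [h, map_zero] at hfx
    exact hfx rfl
  · rw [h, map_zero] at hgy
    exact hgy rfl

/-- a monomial map -/
noncomputable def mono (A : Fin n → Fin n → ℤ) (x : Pt n) : Pt n := fun i => chi (A i) x

lemma val_chi (v : Fin n → ℤ) (x : Pt n) :
    (chi v x : Qb) * ∏ j, (x j : Qb) ^ (-v j).toNat = ∏ j, (x j : Qb) ^ (v j).toNat := by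
  have h1 : chi v x * ∏ i, x i ^ (-v i).toNat = ∏ i, x i ^ (v i).toNat := by
    rw [chi_apply, ← Finset.prod_mul_distrib]
    refine Finset.prod_congr rfl fun i _ => ?_
    rw [← zpow_natCast, ← zpow_natCast, ← zpow_add]
    congr 1
    have := Int.toNat_sub_toNat_neg (v i)
    omega
  have h2 := congrArg Units.val h1
  rw [Units.val_mul, Units.coe_prod, Units.coe_prod] at h2
  simpa using h2

lemma preimage_mono (A : Fin n → Fin n → ℤ) {Z : Set (Pt n)} (hZ : IsZClosed Z) :
    IsZClosed {x | mono A x ∈ Z} := by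
  classical
  obtain ⟨S, rfl⟩ := hZ
  let p : Fin n → MvPolynomial (Fin n) Qb := fun i => ∏ j, MvPolynomial.X j ^ (A i j).toNat
  let q : Fin n → MvPolynomial (Fin n) Qb := fun i => ∏ j, MvPolynomial.X j ^ (-A i j).toNat
  let tr : MvPolynomial (Fin n) Qb → MvPolynomial (Fin n) Qb := fun f =>
    ∑ u ∈ f.support, MvPolynomial.C (f.coeff u) *
      ∏ i, (p i ^ u i * q i ^ (f.totalDegree - u i))
  have key : ∀ (f : MvPolynomial (Fin n) Qb) (x : Pt n),
      MvPolynomial.eval (fun i => (x i : Qb)) (tr f) =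
        (∏ i, MvPolynomial.eval (fun i => (x i : Qb)) (q i)) ^ f.totalDegree *
          MvPolynomial.eval (fun i => (mono A x i : Qb)) f := by
    intro f x
    rw [map_sum, MvPolynomial.eval_eq', Finset.mul_sum]
    refine Finset.sum_congr rfl fun u hu => ?_
    rw [map_mul, MvPolynomial.eval_C, map_prod]
    have h1 : ∀ i, MvPolynomial.eval (fun i => (x i : Qb)) (p i ^ u i * q i ^ (f.totalDegree - u i))
        = MvPolynomial.eval (fun i => (x i : Qb)) (q i) ^ f.totalDegree *
          (mono A x i : Qb) ^ u i := by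
      intro i
      have hui : u i ≤ f.totalDegree := by
        refine le_trans ?_ (MvPolynomial.le_totalDegree hu)
        rw [Finsupp.sum_fintype _ _ fun _ => rfl]
        exact Finset.single_le_sum (f := fun j => u j) (fun _ _ => Nat.zero_le _)
          (Finset.mem_univ i)
      have h2 : MvPolynomial.eval (fun i => (x i : Qb)) (p i) =
          (mono A x i : Qb) * MvPolynomial.eval (fun i => (x i : Qb)) (q i) := by
        simp only [p, q, map_prod, map_pow, MvPolynomial.eval_X]
        exact (val_chi (A i) x).symm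
      rw [map_mul, map_pow, map_pow, h2, mul_pow, mul_assoc, ← pow_add,
        Nat.add_sub_cancel' hui, mul_comm]
    rw [Finset.prod_congr rfl fun i _ => h1 i, Finset.prod_mul_distrib, Finset.prod_pow]
    ring
  refine ⟨tr '' S, ?_⟩
  ext x
  simp only [Set.mem_ofPred_eq, Set.forall_mem_image]
  refine forall₂_congr fun f hf => ?_
  rw [key f x]
  have h3 : (∏ i, MvPolynomial.eval (fun i => (x i : Qb)) (q i)) ^ f.totalDegree ≠ 0 := by
    apply pow_ne_zero
    rw [Finset.prod_ne_zero_iff]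
    intro i _
    simp only [q, map_prod, map_pow, MvPolynomial.eval_X]
    rw [Finset.prod_ne_zero_iff]
    exact fun j _ => pow_ne_zero _ (x j).ne_zero
  constructor
  · intro h
    rw [h, mul_zero]
  · intro h
    rcases mul_eq_zero.1 h with h | h
    · exact absurd h h3
    · exact h

lemma isZClosed_chi (v : Fin n → ℤ) (y : Qbˣ) : IsZClosed {x : Pt n | chi v x = y} := by
  refine ⟨{∏ i, MvPolynomial.X i ^ (v i).toNat -
      MvPolynomial.C (y : Qb) * ∏ i, MvPolynomial.X i ^ (-v i).toNat}, ?_⟩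
  ext x
  simp only [Set.mem_ofPred_eq, Set.mem_singleton_iff, forall_eq, map_sub, map_mul, map_prod,
    map_pow, MvPolynomial.eval_X, MvPolynomial.eval_C, sub_eq_zero]
  rw [← val_chi v x]
  have h3 : ∏ j, (x j : Qb) ^ (-v j).toNat ≠ 0 := by
    rw [Finset.prod_ne_zero_iff]
    exact fun j _ => pow_ne_zero _ (x j).ne_zero
  constructor
  · intro h
    rw [h]
  · intro h
    exact Units.ext (mul_right_cancel₀ h3 h)

/-- the kernel of a primitive character is a subvariety -/
lemma isSubvariety_ker (v w : Fin n → ℤ) (h : ∑ i, w i * v i = 1) :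
    IsSubvariety ((chi v).ker : Set (Pt n)) := by
  classical
  have hcl : ((chi v).ker : Set (Pt n)) = {x : Pt n | chi v x = 1} := by
    ext x
    exact MonoidHom.mem_ker
  refine ⟨hcl ▸ isZClosed_chi v 1, ⟨1, one_mem _⟩, fun A B hA hB hAB => ?_⟩
  let M : Fin n → Fin n → ℤ := fun i j => (if i = j then 1 else 0) - w i * v j
  have hM : ∀ x i, mono M x i = x i * (chi v x ^ w i)⁻¹ := by
    intro x i
    unfold mono
    rw [chi_apply]
    have : ∀ j, x j ^ M i j = x j ^ (if i = j then (1 : ℤ) else 0) * (x j ^ (w i * v j))⁻¹ := by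
      intro j
      rw [← zpow_sub]
    rw [Finset.prod_congr rfl fun j _ => this j, Finset.prod_mul_distrib, Finset.prod_inv_distrib]
    congr 1
    · rw [Finset.prod_eq_single i]
      · simp
      · intro j _ hj
        simp [Ne.symm hj]
      · intro h
        exact absurd (Finset.mem_univ i) h
    · rw [chi_apply, ← Finset.prod_zpow]
      congr 1
      refine Finset.prod_congr rfl fun j _ => ?_
      rw [← zpow_mul, mul_comm]
  have hMker : ∀ x, mono M x ∈ (chi v).ker := by
    intro x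
    rw [MonoidHom.mem_ker, chi_apply]
    have : ∀ i, mono M x i ^ v i = x i ^ v i * (chi v x ^ (w i * v i))⁻¹ := by
      intro i
      rw [hM, mul_zpow, inv_zpow, ← zpow_mul]
    rw [Finset.prod_congr rfl fun j _ => this j, Finset.prod_mul_distrib, Finset.prod_inv_distrib,
      prod_zpow_sum, h, zpow_one, ← chi_apply, mul_inv_cancel]
  have hMid : ∀ x ∈ (chi v).ker, mono M x = x := by
    intro x hx
    funext i
    rw [hM, MonoidHom.mem_ker.1 hx, one_zpow, inv_one, mul_one]
  rcases univ_irred (preimage_mono M hA) (preimage_mono M hB) fun x => hAB (hMker x) with h | h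
  · left
    intro x hx
    have := h x
    rw [Set.mem_ofPred_eq, hMid x hx] at this
    exact this
  · right
    intro x hx
    have := h x
    rw [Set.mem_ofPred_eq, hMid x hx] at this
    exact this

lemma subvariety_finite_union {V : Set (Pt n)} (hV : IsSubvariety V) {ι : Type*} (s : Finset ι)
    (A : ι → Set (Pt n)) (hA : ∀ i, IsZClosed (A i)) (h : ∀ x ∈ V, ∃ i ∈ s, x ∈ A i) :
    ∃ i ∈ s, V ⊆ A i := by
  classical
  have hclosed : ∀ s : Finset ι, IsZClosed {x | ∃ i ∈ s, x ∈ A i} := by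
    intro s
    induction s using Finset.induction_on with
    | empty => simpa using isZClosed_empty
    | insert a s _ ih =>
      have e : {x | ∃ i ∈ insert a s, x ∈ A i} = A a ∪ {x | ∃ i ∈ s, x ∈ A i} := by
        ext x
        simp [Finset.mem_insert]
      rw [e]
      exact (hA a).union ih
  induction s using Finset.induction_on with
  | empty =>
    obtain ⟨x, hx⟩ := hV.2.1
    obtain ⟨i, hi, _⟩ := h x hx
    exact absurd hi (Finset.notMem_empty i)
  | insert a s _ ih =>
    rcases hV.2.2 (A a) {x | ∃ i ∈ s, x ∈ A i} (hA a) (hclosed s) (by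
      intro x hx
      obtain ⟨i, hi, hxi⟩ := h x hx
      rcases Finset.mem_insert.1 hi with rfl | hi
      · exact Or.inl hxi
      · exact Or.inr ⟨i, hi, hxi⟩) with h | h
    · exact ⟨a, Finset.mem_insert_self a s, h⟩
    · obtain ⟨i, hi, hVi⟩ := ih h
      exact ⟨i, Finset.mem_insert_of_mem hi, hVi⟩

/-- a nonzero integral vector is a multiple of a primitive one -/
lemma exists_primitive (v : Fin n → ℤ) (hv : v ≠ 0) :
    ∃ (d : ℤ) (v' w : Fin n → ℤ), d ≠ 0 ∧ (∀ i, v i = d * v' i) ∧ ∑ i, w i * v' i = 1 := by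
  let I : Ideal ℤ := Ideal.span (Set.range v)
  let d := Submodule.IsPrincipal.generator I
  have hd : d ∈ I := Submodule.IsPrincipal.generator_mem I
  obtain ⟨w, hw⟩ := (Ideal.mem_span_range_iff_exists_fun).1 hd
  have hdv : ∀ i, ∃ a, v i = d * a := by
    intro i
    have h1 : v i ∈ I := Ideal.subset_span ⟨i, rfl⟩
    have h2 : d ∣ v i := (Submodule.IsPrincipal.mem_iff_generator_dvd I).1 h1
    exact h2
  choose v' hv' using hdv
  have hd0 : d ≠ 0 := by
    intro h
    apply hv
    funext i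
    rw [hv' i, h, zero_mul]
    rfl
  refine ⟨d, v', w, hd0, hv', ?_⟩
  have h3 : d * ∑ i, w i * v' i = d * 1 := by
    rw [mul_one, Finset.mul_sum]
    conv_rhs => rw [← hw]
    refine Finset.sum_congr rfl fun i _ => ?_
    rw [hv' i]
    ring
  exact mul_left_cancel₀ hd0 h3

lemma two_zpow {k : ℤ} (h : (Units.mk0 (2 : Qb) two_ne_zero) ^ k = 1) : k = 0 := by
  have h1 := congrArg Units.val h
  rw [Units.val_zpow_eq_zpow_val, Units.val_mk0, Units.val_one] at h1
  have h2 : ((2 : ℚ) ^ k : ℚ) = 1 := by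
    have : algebraMap ℚ Qb ((2 : ℚ) ^ k) = algebraMap ℚ Qb 1 := by
      rw [map_zpow₀, map_ofNat, map_one, h1]
    exact (algebraMap ℚ Qb).injective this
  exact (zpow_eq_one_iff_right₀ (by norm_num) (by norm_num)).1 h2

lemma sat_mono {Γ Δ : Subgroup (Pt n)} (h : Γ ≤ Δ) : sat Γ ≤ sat Δ := by
  rintro x ⟨m, hm, hx⟩
  exact ⟨m, hm, h hx⟩

lemma le_power (Γ : Subgroup (Pt n)) : Γ ≤ power (coordGroup Γ) :=
  fun _ hg i _ => coord_mem hg i

lemma transverse_of_power {Γ : Subgroup (Pt n)} {V : Set (Pt n)}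
    (h : IsTransverse (power (coordGroup Γ)) V) : IsTransverse Γ V := by
  rintro T ⟨B, hB, γ, hγ, rfl⟩
  exact h _ ⟨B, hB, γ, sat_mono (le_power Γ) hγ, rfl⟩

lemma coordField_power (K : IntermediateField ℚ Qb) (Γ : Subgroup (Pt n)) :
    coordField K (power (coordGroup Γ) : Subgroup (Pt n)) = coordField K Γ := by
  apply le_antisymm
  · refine sup_le le_sup_left ?_
    rw [IntermediateField.adjoin_le_iff]
    rintro y ⟨g, hg, i, rfl⟩
    exact mem_coordField (hg i (Set.mem_univ i))
  · refine sup_le le_sup_left ?_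
    rw [IntermediateField.adjoin_le_iff]
    rintro y ⟨g, hg, i, rfl⟩
    exact (le_sup_right : _ ≤ coordField K (power (coordGroup Γ) : Subgroup (Pt n)))
      (IntermediateField.subset_adjoin _ _ ⟨g, le_power Γ hg, i, rfl⟩)

/-- if all the nontrivial characters map `Γ` onto the coordinate group, transversality for `Γ` and
for the power of the coordinate group are the same -/
lemma power_transverse (hn : 1 ≤ n) {Γ : Subgroup (Pt n)} (hΓ : sat Γ = Γ)
    (hchi : ∀ v : Fin n → ℤ, v ≠ 0 → Γ.map (chi v) = coordGroup Γ) {V : Set (Pt n)}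
    (h : IsTransverse Γ V) : IsTransverse (power (coordGroup Γ)) V := by
  classical
  rintro T ⟨B, hB, γ, hγ, rfl⟩ hT hVT
  have hBne : (B : Set (Pt n)) ≠ Set.univ := by
    intro hB'
    apply hT
    ext x
    simp only [Set.mem_ofPred_eq, Set.mem_univ, iff_true]
    refine ⟨γ⁻¹ * x, ?_, by rw [mul_inv_cancel_left]⟩
    have : γ⁻¹ * x ∈ (B : Set (Pt n)) := by rw [hB']; trivial
    exact this
  obtain ⟨v, hv, hvB⟩ := exists_chi_of_closed_subgroup B hB.1 hBne
  obtain ⟨d, v', w, hd, hvv', hw⟩ := exists_primitive v hv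
  have hv'0 : v' ≠ 0 := by
    rintro rfl
    simp at hw
  -- the primitive character is trivial on `B`
  have hB1 : ∀ b ∈ B, chi v' b = 1 := by
    have hpow : ∀ b ∈ B, chi v' b ^ d.natAbs = 1 := by
      intro b hb
      have h1 : chi v' b ^ d = 1 := by
        rw [← hvB b hb, chi_apply, chi_apply, ← Finset.prod_zpow]
        refine Finset.prod_congr rfl fun i _ => ?_
        rw [← zpow_mul, hvv' i, mul_comm]
      rcases Int.natAbs_eq d with h | h
      · rw [h, zpow_natCast] at h1
        exact h1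
      · rw [h, zpow_neg, zpow_natCast, inv_eq_one] at h1
        exact h1
    obtain ⟨R, hR, _⟩ := exists_roots_finset d.natAbs (Int.natAbs_pos.2 hd) 1
    obtain ⟨ζ, _, hζ⟩ := subvariety_finite_union hB R (fun ζ => {x | chi v' x = ζ})
      (fun ζ => isZClosed_chi v' ζ) fun b hb => ⟨chi v' b, hR _ (hpow b hb), rfl⟩
    have h1 : chi v' (1 : Pt n) = ζ := hζ (one_mem B)
    intro b hb
    have h2 : chi v' b = ζ := hζ hb
    rw [h2, ← h1, map_one]
  -- the value at `γ` is a value at a point of `Γ`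
  have hγ0 : ∀ i, γ i ∈ coordGroup Γ := by
    obtain ⟨m, hm, hγm⟩ := hγ
    intro i
    exact root_mem_coordGroup hn hΓ hm (hγm i (Set.mem_univ i))
  have h2 : chi v' γ ∈ Γ.map (chi v') := by
    rw [hchi v' hv'0]
    exact chi_mem_coordGroup v' hγ0
  obtain ⟨γ', hγ', hγγ'⟩ := h2
  refine h {x | ∃ b ∈ (chi v').ker, x = γ' * b} ⟨(chi v').ker, isSubvariety_ker v' w hw, γ',
    ⟨1, one_pos, by rw [pow_one]; exact hγ'⟩, rfl⟩ ?_ ?_
  · intro huniv
    obtain ⟨i, hi⟩ : ∃ i, v' i ≠ 0 := by
      by_contra hcon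
      push Not at hcon
      exact hv'0 (funext hcon)
    have h3 : γ' * Pi.mulSingle i (Units.mk0 (2 : Qb) two_ne_zero) ∈
        {x | ∃ b ∈ (chi v').ker, x = γ' * b} := by
      rw [huniv]
      trivial
    obtain ⟨b, hb, hbe⟩ := h3
    have h4 : b = Pi.mulSingle i (Units.mk0 (2 : Qb) two_ne_zero) := (mul_left_cancel hbe).symm
    rw [h4, MonoidHom.mem_ker, chi_mulSingle] at hb
    exact hi (two_zpow hb)
  · intro x hx
    obtain ⟨b, hb, rfl⟩ := hVT hx
    refine ⟨γ'⁻¹ * (γ * b), ?_, by rw [mul_inv_cancel_left]⟩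
    rw [MonoidHom.mem_ker, map_mul, map_mul, map_inv, hγγ', hB1 b hb, mul_one, inv_mul_cancel]

/-- the criterion -/
theorem lehmer_iff (hn : 1 ≤ n) (K : IntermediateField ℚ Qb) {Γ : Subgroup (Pt n)}
    (hΓ : sat Γ = Γ) (hfin : FinRk (Additive Γ)) :
    IsLehmerGroup K Γ ↔ (∀ v : Fin n → ℤ, v ≠ 0 → Γ.map (chi v) = coordGroup Γ) ∧
      IsLehmerGroup K (power (coordGroup Γ) : Subgroup (Pt n)) := by
  constructor
  · intro h
    refine ⟨fun v hv => ?_, ?_⟩
    · by_contra hne
      exact not_lehmer_of_chi hn hΓ hfin v hv hne h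
    · obtain ⟨c, hc, hL⟩ := h
      refine ⟨c, hc, fun V hV hVu hVt => ?_⟩
      rw [coordField_power]
      exact hL V hV hVu (transverse_of_power hVt)
  · rintro ⟨hchi, c, hc, hL⟩
    refine ⟨c, hc, fun V hV hVu hVt => ?_⟩
    have := hL V hV hVu (power_transverse hn hΓ hchi hVt)
    rwa [coordField_power] at this

end Pool.Agent.E8helper9.RM
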